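import Pool.Agent.Lib.MP_1a91b9_ntN.DJ.Sgn
import Pool.Agent.Lib.MP_1a91b9_ntN.R.Defs

/-!
# MP_1a91b9_nt (multicubic base fields), part D: the sets of primes which are good for all the labels

`dsj3`: the label `i` has the classes `k i`, `j i` and the sets of primes `P i`, `T i ⊆ B` (the exponents
`1` and `2`); the labels are pairwise different modulo cubes. The sets `S` of primes outside `B` for
which `Gd9 (k i) (j i) (S ∪ P i) (T i)` for all `i` have lower density at least `cinf3 ^ N` in every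
class.
-/

set_option autoImplicit false
set_option linter.unusedSectionVars false

namespace Pool.Agent.Lib.MP_1a91b9_ntN

open NumberField Finset Pool.Agent.Lib.MP_1a91b9_ntT Pool.Agent.Lib.MP_1a91b9_ntK
  Pool.Agent.Lib.MP_1a91b9_ntK.Da Pool.Agent.Lib.MP_1a91b9_ntK2 Pool.Agent.Lib.MP_1a91b9_ntK2.D9
open Pool.Agent.Lib.MP_1a91b9_ntH (PS nm Sx mem_Sx)

noncomputable section

theorem det_of_ker {n : Type} [Fintype n] [DecidableEq n] (M : Matrix n n (ZMod 3))
    (h : Fintype.card {v : n → ZMod 3 // M.mulVec v = 0} = 1) : M.det ≠ 0 := by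
  intro h0
  obtain ⟨v, hv, hv0⟩ := Matrix.exists_mulVec_eq_zero_iff.2 h0
  obtain ⟨x, hx⟩ := Fintype.card_eq_one_iff.1 h
  have h1 := hx ⟨v, hv0⟩
  have h2 := hx ⟨0, Matrix.mulVec_zero _⟩
  rw [← h2] at h1
  exact hv (congrArg Subtype.val h1)

/-! ### The exceptional case -/

section Tr

variable {ι : Type} [DecidableEq ι] {D : Dat3b ι} {e : ι → ZMod 3} {τ σ κ₀ : ZMod 3}
  {B Ba : Finset ι} {E' : Type} [Fintype E'] [DecidableEq E']

theorem not_triv_s (hσ : σ ≠ 0) (R : Matrix (Ba ⊕ E') (Ba ⊕ E') (ZMod 3))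
    (γ : Bool ⊕ B → ZMod 3) : ¬ Triv (cJ e τ σ B Ba) (PJ e B Ba E') R γ := by
  rintro ⟨γ', h1, _⟩
  apply hσ
  have h2 := h1 (Sum.inl true)
  rw [sum_eq_zero fun f _ => ?_] at h2
  · exact h2.symm
  · rcases f with p | u
    · show (0 : ZMod 3) * _ = 0
      rw [zero_mul]
    · show (0 : ZMod 3) * _ = 0
      rw [zero_mul]

theorem not_triv_t (hτ : τ ≠ 0) (hE : IsEmpty E') (R : Matrix (Ba ⊕ E') (Ba ⊕ E') (ZMod 3))
    (γ : Bool ⊕ B → ZMod 3) : ¬ Triv (cJ e τ σ B Ba) (PJ e B Ba E') R γ := by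
  rintro ⟨γ', h1, _⟩
  apply hτ
  have h2 := h1 (Sum.inl false)
  rw [sum_eq_zero fun f _ => ?_] at h2
  · exact h2.symm
  · rcases f with p | u
    · show (0 : ZMod 3) * _ = 0
      rw [zero_mul]
    · exact (hE.false u).elim

theorem triv_zero (hBa : Ba ⊆ B) {γ : Bool ⊕ B → ZMod 3}
    (hα : ∀ _u : E', γ (Sum.inl false) + ∑ p ∈ Ba, e p * D.a p = 0) :
    Triv (cJ e 0 0 B Ba) (PJ e B Ba E') (RJ D e 0 0 κ₀ B Ba E' γ) γ := by
  refine ⟨Sum.elim (fun _ => -1) fun _ => 0, fun j => ?_, fun f => ?_⟩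
  · rw [Fintype.sum_sum_type]
    simp only [Sum.elim_inl, Sum.elim_inr, mul_zero, sum_const_zero, add_zero]
    rcases j with x | p
    · have h1 : cJ e 0 0 B Ba (Sum.inl x) = 0 := by
        show (if x then (0 : ZMod 3) else 0) = 0
        exact ite_self _
      rw [h1]
      refine sum_eq_zero fun p _ => ?_
      show (0 : ZMod 3) * _ = 0
      rw [zero_mul]
    · by_cases h : (p : ι) ∈ Ba
      · rw [sum_eq_single ⟨p, h⟩]
        · have h1 : PJ e B Ba E' (Sum.inr p) (Sum.inl ⟨p, h⟩) = -e p := if_pos rfl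
          have h2 : cJ e 0 0 B Ba (Sum.inr p) = e p := if_pos h
          rw [h1, h2]
          ring
        · intro p' _ hp'
          have h1 : PJ e B Ba E' (Sum.inr p) (Sum.inl p') = 0 :=
            if_neg fun h' => hp' (Subtype.ext h'.symm)
          rw [h1, zero_mul]
        · exact fun h' => absurd (mem_univ _) h'
      · have h2 : cJ e 0 0 B Ba (Sum.inr p) = 0 := if_neg h
        rw [h2]
        refine sum_eq_zero fun p' _ => ?_
        have h1 : PJ e B Ba E' (Sum.inr p) (Sum.inl p') = 0 := if_neg fun h' => h (by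
          rw [h']
          exact p'.2)
        rw [h1, zero_mul]
  · rw [Fintype.sum_sum_type, Fintype.sum_sum_type, Fintype.sum_bool]
    simp only [Sum.elim_inl, Sum.elim_inr, mul_zero, sum_const_zero, add_zero]
    rcases f with p | u
    · have h1 : ∑ x : B, PJ e B Ba E' (Sum.inr x) (Sum.inl p) * γ (Sum.inr x) =
          -(e p * xB B γ p) := by
        rw [sum_eq_single ⟨p, hBa p.2⟩]
        · have h2 : PJ e B Ba E' (Sum.inr ⟨p, hBa p.2⟩) (Sum.inl p) = -e p := if_pos rfl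
          rw [h2, xB, dif_pos (hBa p.2)]
          ring
        · intro p' _ hp'
          have h2 : PJ e B Ba E' (Sum.inr p') (Sum.inl p) = 0 :=
            if_neg fun h' => hp' (Subtype.ext h')
          rw [h2, zero_mul]
        · exact fun h' => absurd (mem_univ _) h'
      have h2 : ∑ p' : Ba, RJ D e 0 0 κ₀ B Ba E' γ (Sum.inl p) (Sum.inl p') * -1 =
          -(e p * xB B γ p) := by
        have h3 : ∀ p' : Ba, RJ D e 0 0 κ₀ B Ba E' γ (Sum.inl p) (Sum.inl p') * -1 =
            e p * e p' * D.s p p' + if p' = p then -(e p * xB B γ p +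
              ∑ l ∈ Ba.erase (p : ι), e p * e l * D.s p l + e p * e p * D.s p p) else 0 := by
          intro p'
          show (if p = p' then e p * (0 * D.a p + 0 * D.b p) + e p * xB B γ p +
            ∑ l ∈ Ba.erase (p : ι), e p * e l * D.s p l else -(e p * e p' * D.s p p')) * -1 = _
          by_cases h : p = p'
          · subst h
            rw [if_pos rfl, if_pos rfl]
            ring
          · rw [if_neg h, if_neg fun h' => h h'.symm]
            ring
        rw [sum_congr rfl fun p' _ => h3 p', sum_add_distrib, sum_ite_eq', if_pos (mem_univ _),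
          sum_coe_sort Ba fun l => e p * e l * D.s p l,
          ← add_sum_erase Ba (fun l => e p * e l * D.s p l) p.2]
        ring
      rw [h1, h2]
      show (0 : ZMod 3) * _ + 0 * _ + _ - _ = 0
      ring
    · have h1 : ∑ x : B, PJ e B Ba E' (Sum.inr x) (Sum.inr u) * γ (Sum.inr x) = 0 :=
        sum_eq_zero fun x _ => by
          show (0 : ZMod 3) * _ = 0
          rw [zero_mul]
      have h2 : ∑ p' : Ba, RJ D e 0 0 κ₀ B Ba E' γ (Sum.inr u) (Sum.inl p') * -1 =
          -∑ p ∈ Ba, e p * D.a p := by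
        rw [← sum_coe_sort Ba fun p => e p * D.a p, ← sum_neg_distrib]
        refine sum_congr rfl fun p' _ => ?_
        show e p' * D.a p' * -1 = _
        ring
      rw [h1, h2]
      show (0 : ZMod 3) * _ + 1 * γ (Sum.inl false) + 0 - _ = 0
      linear_combination hα u

end Tr

/-! ### The labels -/

theorem z3_one : (1 : ZMod 3) ≠ 0 := by decide

theorem z3_two : (2 : ZMod 3) ≠ 0 := by decide

theorem f3_01 : (0 : Fin 3) ≠ 1 := by decide

theorem f3_20 : (2 : Fin 3) ≠ 0 := by decide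

theorem f3_21 : (2 : Fin 3) ≠ 1 := by decide

/-- The sets with a property in a fine class. -/
def sgF (B : Finset P3) (γ : Bool ⊕ B → ZMod 3) (G : Finset P3 → Prop) (X : ℕ) :
    Finset (Finset P3) := by
  classical exact (SG (dtB d3b B) (SxT B) γ X).filter fun S => G S

theorem mem_sgF {B : Finset P3} {γ : Bool ⊕ B → ZMod 3} {G : Finset P3 → Prop} {X : ℕ}
    {S : Finset P3} : S ∈ sgF B γ G X ↔ S ∈ SG (dtB d3b B) (SxT B) γ X ∧ G S := by
  classical
  rw [sgF, mem_filter]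

/-- The sets with a property in a class. -/
def clF (B : Finset P3) (α β : ZMod 3) (G : Finset P3 → Prop) (X : ℕ) : Finset (Finset P3) := by
  classical exact (SxT B X).filter fun S => (∑ q ∈ S, d3b.a q = α ∧ ∑ q ∈ S, d3b.b q = β) ∧ G S

theorem mem_clF {B : Finset P3} {α β : ZMod 3} {G : Finset P3 → Prop} {X : ℕ}
    {S : Finset P3} : S ∈ clF B α β G X ↔ S ∈ SxT B X ∧ (∑ q ∈ S, d3b.a q = α ∧
      ∑ q ∈ S, d3b.b q = β) ∧ G S := by
  classical
  rw [clF, mem_filter]

theorem d3_kc (k : ZMod 3) (e : P3 → ZMod 3) (R : Finset P3) :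
    (d3b.tw k 0).kc e 1 R = d3.kc e k R := by
  unfold Dat3.kc
  simp only [N_tw]

variable {A : Type} [Fintype A] [DecidableEq A]

theorem cJ_inj {B P T P' T' : Finset P3} (hP : P ⊆ B) (hT : T ⊆ B) (hP' : P' ⊆ B) (hT' : T' ⊆ B)
    (hd : Disjoint P T) (hd' : Disjoint P' T') {k j k' j' : ZMod 3}
    (h : cJ (eT T) k j B (P ∪ T) = cJ (eT T') k' j' B (P' ∪ T')) :
    k = k' ∧ j = j' ∧ P = P' ∧ T = T' := by
  have hv : ∀ {P T : Finset P3} (p : P3), Disjoint P T →
      ((p ∈ P ↔ (if p ∈ P ∪ T then eT T p else 0) = 1) ∧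
        (p ∈ T ↔ (if p ∈ P ∪ T then eT T p else 0) = -1)) := by
    intro P T p hd
    have h01 : ¬ ((0 : ZMod 3) = 1) := by decide
    have h02 : ¬ ((0 : ZMod 3) = -1) := by decide
    have h12 : ¬ ((1 : ZMod 3) = -1) := by decide
    have h21 : ¬ ((-1 : ZMod 3) = 1) := by decide
    unfold eT
    by_cases h1 : p ∈ P
    · have h2 : p ∉ T := fun h => disjoint_left.1 hd h1 h
      simp [h1, h2, h12]
    · by_cases h2 : p ∈ T
      · simp [h1, h2, h21]
      · simp [h1, h2, h01]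
  have hc : ∀ p ∈ B, (if p ∈ P ∪ T then eT T p else 0) = (if p ∈ P' ∪ T' then eT T' p else 0) :=
    fun p hp => congrFun h (Sum.inr ⟨p, hp⟩)
  refine ⟨congrFun h (Sum.inl false), congrFun h (Sum.inl true), ?_, ?_⟩
  · ext p
    constructor
    · intro hp
      rw [(hv p hd').1, ← hc p (hP hp), ← (hv p hd).1]
      exact hp
    · intro hp
      rw [(hv p hd).1, hc p (hP' hp), ← (hv p hd').1]
      exact hp
  · ext p
    constructor
    · intro hp
      rw [(hv p hd').2, ← hc p (hT hp), ← (hv p hd).2]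
      exact hp
    · intro hp
      rw [(hv p hd).2, hc p (hT' hp), ← (hv p hd').2]
      exact hp

/-- **The sets of primes which are good for all the labels, in a fine class.** -/
theorem gd_fine [Nonempty A] (k j : A → Fin 3) (P T : A → Finset P3) {B : Finset P3}
    (hP : ∀ a, P a ⊆ B) (hT : ∀ a, T a ⊆ B) (hPT : ∀ a, Disjoint (P a) (T a))
    (hinj : Function.Injective fun a => (k a, j a, P a, T a)) (γ : Bool ⊕ B → ZMod 3) {κ₀ : ℝ}
    (hκ : κ₀ < cinf3 ^ Fintype.card A) (ε : ℝ) (hε : 0 < ε) :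
    ∃ X₀ : ℕ, ∀ X : ℕ, X₀ ≤ X →
      κ₀ * ((SG (dtB d3b B) (SxT B) γ X).card : ℝ) - ε * X ≤
        ((sgF B γ (fun S => ∀ a, Gd9 (k a) (j a) (S ∪ P a) (T a)) X).card : ℝ) := by
  classical
  -- the classes of the labels
  set αa : A → ZMod 3 := fun a => γ (Sum.inl false) + ∑ p ∈ P a ∪ T a, eT (T a) p * d3b.a p
    with hαa
  set βa : A → ZMod 3 := fun a => γ (Sum.inl true) + ∑ p ∈ P a ∪ T a, eT (T a) p * d3b.b p
    with hβa
  set pr : A → Prop := fun a => j a = 1 ∨ (j a = 0 ∧ k a = 0 ∧ αa a = 0) with hpr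
  set κa : A → ZMod 3 := fun a => if j a = 1 then (k a : ZMod 3) else βa a with hκa
  have hB : ∀ a, P a ∪ T a ⊆ B := fun a => union_subset (hP a) (hT a)
  obtain ⟨X₀, h0⟩ := dens_P (A := A) (E := fun a => ↥(P a ∪ T a) ⊕ {_u : Unit // pr a})
    (eng_dtB d3b_OK card_P3 B) (mean_dtB d3b_OK B)
    (c := fun a => cJ (eT (T a)) (k a : ZMod 3) (j a : ZMod 3) B (P a ∪ T a))
    (fun a b hab => by
      obtain ⟨h1, h2, h3, h4⟩ := cJ_inj (hP a) (hT a) (hP b) (hT b) (hPT a) (hPT b) hab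
      exact hinj (by
        show (k a, j a, P a, T a) = (k b, j b, P b, T b)
        rw [show k a = k b from h1, show j a = j b from h2, h3, h4]))
    (P := fun a => PJ (eT (T a)) B (P a ∪ T a) {_u : Unit // pr a})
    (R := fun a => RJ d3b (eT (T a)) (k a : ZMod 3) (j a : ZMod 3) (κa a) B (P a ∪ T a)
      {_u : Unit // pr a} γ)
    (fun a => RJ_symm d3b_OK.ok.sym γ)
    (fun a => PJ_inj (eT_mul _) (hB a) fun u u' => Subsingleton.elim _ _) γ hκ ε hε
  refine ⟨X₀, fun X hX => (h0 X hX).trans ?_⟩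
  rw [Nat.cast_le]
  refine card_le_card fun S hS => ?_
  rw [mem_filter] at hS
  rw [mem_sgF]
  obtain ⟨hS1, hS2, hS3⟩ := hS
  refine ⟨hS1, fun a => ?_⟩
  obtain ⟨hS4, hS5⟩ := mem_SG.1 hS1
  have hSB : Disjoint S B := (mem_SxT.1 hS4).2
  have hSb : Disjoint S (P a ∪ T a) := disjoint_of_subset_right (hB a) hSB
  have hST : Disjoint S (T a) := disjoint_of_subset_right (hT a) hSB
  have hd : Disjoint (S ∪ P a) (T a) := disjoint_union_left.2 ⟨hST, hPT a⟩
  have hU : S ∪ P a ∪ T a = S ∪ (P a ∪ T a) := union_assoc _ _ _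
  have he1 : ∀ q ∈ S, eT (T a) q = 1 := fun q hq => if_neg (disjoint_left.1 hST hq)
  have hγ : ∀ p ∈ P a ∪ T a, xB B γ p = ∑ q ∈ S, d3b.s q p := by
    intro p hp
    rw [xB, dif_pos (hB a hp), ← hS5]
    rfl
  have hα : ∑ q ∈ S ∪ P a ∪ T a, eT (T a) q * d3b.a q = αa a := by
    rw [hU, sum_union hSb, hαa]
    congr 1
    rw [← hS5]
    exact sum_congr rfl fun q hq => by
      rw [he1 q hq, one_mul]
      rfl
  have hβ : ∑ q ∈ S ∪ P a ∪ T a, eT (T a) q * d3b.b q = βa a := by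
    rw [hU, sum_union hSb, hβa]
    congr 1
    rw [← hS5]
    exact sum_congr rfl fun q hq => by
      rw [he1 q hq, one_mul]
      rfl
  have hα' : cl3 (DD3 (S ∪ P a) * DD3 (T a) ^ 2) = αa a := by
    rw [← cls_a hd, ← hα]
    rfl
  have hβ' : cn3 (DD3 (S ∪ P a) * DD3 (T a) ^ 2) = βa a := by
    rw [← cls_b hd, ← hβ]
    rfl
  have hne : (S ∪ P a ∪ T a).Nonempty := by
    rw [hU]
    exact (nonempty_iff_ne_empty.2 hS2).mono subset_union_left
  have hk := hS3 a
  rw [Gd9, hα', hβ']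
  rcases fin3_cases (j a) with hj | hj | hj
  · by_cases hka : k a = 0
    · by_cases hα0 : αa a = 0
      · -- the hard class
        have hp : pr a := Or.inr ⟨hj, hka, hα0⟩
        let _ : Unique {_u : Unit // pr a} := ⟨⟨⟨(), hp⟩⟩, fun u => Subsingleton.elim _ _⟩
        have h1 : d3b.kB (eT (T a)) (k a : ZMod 3) (j a : ZMod 3) (κa a) (S ∪ (P a ∪ T a)) = 3 := by
          rw [← kB_bordered d3b_OK.ok.sym (eT_mul _) he1 (hB a) hSb {_u : Unit // pr a} hγ]
          refine hk.trans ?_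
          rw [tP, if_pos]
          simp only [hka, hj]
          exact triv_zero (hB a) fun _ => hα0
        have hκ' : κa a = βa a := by
          rw [hκa]
          exact if_neg (by rw [hj]; exact f3_01)
        refine Or.inr (Or.inl ⟨hj, hka, hα0, hne, ?_⟩)
        rw [hκ', hka, hj] at h1
        show d3b.kB (eT (T a)) 0 0 (βa a) (S ∪ P a ∪ T a) = 3
        rw [hU]
        exact h1
      · -- the Laplacian
        have hp : ¬ pr a := by
          rintro (h | ⟨_, _, h⟩)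
          · rw [hj] at h
            exact absurd h f3_01
          · exact hα0 h
        have hE : IsEmpty {_u : Unit // pr a} := ⟨fun u => hp u.2⟩
        have h1 : (d3b.tw (k a : ZMod 3) (j a : ZMod 3)).kc (eT (T a)) 1 (S ∪ (P a ∪ T a)) = 3 := by
          rw [← kB_unbordered (κ₀ := κa a) d3b_OK.ok.sym (eT_mul _) he1 (hB a) hSb
            {_u : Unit // pr a} hγ]
          refine hk.trans ?_
          rw [tP, if_pos]
          simp only [hka, hj]
          exact triv_zero (hB a) fun u => (hE.false u).elim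
        refine Or.inl ⟨hj, Or.inr ⟨hka, ?_, ?_⟩⟩
        · have h2 : ∑ q ∈ S ∪ P a ∪ T a, eT (T a) q * d3.a q = αa a := hα
          rw [h2]
          exact hα0
        · rw [hka, hj] at h1
          have h2 := d3_kc 0 (eT (T a)) (S ∪ (P a ∪ T a))
          rw [hU, ← h2]
          exact h1
    · -- `k ≠ 0`, `j = 0`
      have hp : ¬ pr a := by
        rintro (h | ⟨_, h, _⟩)
        · rw [hj] at h
          exact absurd h f3_01
        · exact hka h
      have hE : IsEmpty {_u : Unit // pr a} := ⟨fun u => hp u.2⟩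
      have h1 : (d3b.tw (k a : ZMod 3) (j a : ZMod 3)).kc (eT (T a)) 1 (S ∪ (P a ∪ T a)) = 1 := by
        rw [← kB_unbordered (κ₀ := κa a) d3b_OK.ok.sym (eT_mul _) he1 (hB a) hSb
          {_u : Unit // pr a} hγ]
        refine hk.trans ?_
        rw [tP, if_neg (not_triv_t hka hE _ γ)]
      refine Or.inl ⟨hj, Or.inl ⟨hka, ?_⟩⟩
      rw [hj] at h1
      have h2 := det_of_ker _ h1
      have h3 := N_tw (k a : ZMod 3) (eT (T a)) (S ∪ (P a ∪ T a))
      rw [hU, ← h3]
      exact h2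
  · -- `j = 1`
    have hp : pr a := Or.inl hj
    let _ : Unique {_u : Unit // pr a} := ⟨⟨⟨(), hp⟩⟩, fun u => Subsingleton.elim _ _⟩
    have h1 : d3b.kB (eT (T a)) (k a : ZMod 3) (j a : ZMod 3) (κa a) (S ∪ (P a ∪ T a)) = 1 := by
      rw [← kB_bordered d3b_OK.ok.sym (eT_mul _) he1 (hB a) hSb {_u : Unit // pr a} hγ]
      refine hk.trans ?_
      rw [tP, if_neg (not_triv_s (by rw [hj]; exact z3_one) _ γ)]
    have hκ' : κa a = k a := by
      rw [hκa]
      exact if_pos hj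
    refine Or.inr (Or.inr (Or.inl ⟨hj, ?_⟩))
    rw [hκ', hj] at h1
    have h2 := det_of_ker _ h1
    show (d3b.NB (eT (T a)) (k a : ZMod 3) 1 (k a : ZMod 3) (S ∪ P a ∪ T a)).det ≠ 0
    rw [hU]
    exact h2
  · -- `j = 2`
    have hp : ¬ pr a := by
      rintro (h | ⟨h, _, _⟩)
      · rw [hj] at h
        exact absurd h f3_21
      · rw [hj] at h
        exact absurd h f3_20
    have hE : IsEmpty {_u : Unit // pr a} := ⟨fun u => hp u.2⟩
    have h1 : (d3b.tw (k a : ZMod 3) (j a : ZMod 3)).kc (eT (T a)) 1 (S ∪ (P a ∪ T a)) = 1 := by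
      rw [← kB_unbordered (κ₀ := κa a) d3b_OK.ok.sym (eT_mul _) he1 (hB a) hSb
        {_u : Unit // pr a} hγ]
      refine hk.trans ?_
      rw [tP, if_neg (not_triv_s (by rw [hj]; exact z3_two) _ γ)]
    refine Or.inr (Or.inr (Or.inr ⟨hj, ?_⟩))
    rw [hj] at h1
    have h2 := det_of_ker _ h1
    show ((d3b.tw (k a : ZMod 3) 2).N (eT (T a)) 1 (S ∪ P a ∪ T a)).det ≠ 0
    rw [hU]
    exact h2

/-! ### The sum over the fine classes -/

theorem card_fine (B : Finset P3) (α β : ZMod 3) (G : Finset P3 → Prop) (X : ℕ) :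
    (clF B α β G X).card =
      ∑ γ ∈ univ.filter (fun γ : Bool ⊕ B → ZMod 3 => γ (Sum.inl false) = α ∧
        γ (Sum.inl true) = β), (sgF B γ G X).card := by
  rw [card_eq_sum_card_fiberwise (f := fun S => fun j : Bool ⊕ B => ∑ q ∈ S, (dtB d3b B).a q j)
    (t := univ.filter (fun γ : Bool ⊕ B → ZMod 3 => γ (Sum.inl false) = α ∧
        γ (Sum.inl true) = β))]
  · refine sum_congr rfl fun γ hγ => ?_
    congr 1
    ext S
    rw [mem_filter, mem_clF, mem_sgF, mem_SG]
    rw [mem_filter] at hγ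
    constructor
    · rintro ⟨⟨h1, h2, h3⟩, h4⟩
      exact ⟨⟨h1, fun j => congrFun h4 j⟩, h3⟩
    · rintro ⟨⟨h1, h2⟩, h3⟩
      refine ⟨⟨h1, ⟨?_, ?_⟩, h3⟩, funext h2⟩
      · have h4 : ∑ q ∈ S, d3b.a q = γ (Sum.inl false) := h2 (Sum.inl false)
        rw [h4, hγ.2.1]
      · have h4 : ∑ q ∈ S, d3b.b q = γ (Sum.inl true) := h2 (Sum.inl true)
        rw [h4, hγ.2.2]
  · intro S hS
    have hS' := (mem_clF.1 (mem_coe.1 hS)).2.1
    rw [mem_coe, mem_filter]
    exact ⟨mem_univ _, hS'⟩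

/-- **Part D, jointly.** -/
theorem dsj3 : DSJ3 := by
  classical
  intro N hN k j P T B hP hT hPT hinj α β κ₀ hκ ε hε
  have : Nonempty (Fin N) := ⟨⟨0, hN⟩⟩
  set Γ := univ.filter (fun γ : Bool ⊕ B → ZMod 3 => γ (Sum.inl false) = α ∧
        γ (Sum.inl true) = β) with hΓ
  have hM : (0 : ℝ) < Fintype.card (Bool ⊕ B → ZMod 3) := by exact_mod_cast Fintype.card_pos
  choose X0 h0 using fun γ : Bool ⊕ B → ZMod 3 =>
    gd_fine k j P T hP hT hPT hinj γ (by rw [Fintype.card_fin]; exact hκ)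
      (ε / Fintype.card (Bool ⊕ B → ZMod 3)) (by positivity)
  refine ⟨∑ γ, X0 γ, fun X hX => ?_⟩
  have hXt : ∀ γ, X0 γ ≤ X := fun γ =>
    (single_le_sum (fun _ _ => Nat.zero_le _) (mem_univ γ)).trans hX
  have e1 : ((Sx P3 X).filter fun S => Disjoint S B ∧ ∑ q ∈ S, d3b.a q = α ∧
      ∑ q ∈ S, d3b.b q = β) = clF B α β (fun _ => True) X := by
    ext S
    rw [mem_filter, mem_clF, mem_SxT]
    tauto
  have e2 : ((Sx P3 X).filter fun S => Disjoint S B ∧ (∑ q ∈ S, d3b.a q = α ∧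
      ∑ q ∈ S, d3b.b q = β) ∧ ∀ i, Gd9 (k i) (j i) (S ∪ P i) (T i)) =
      clF B α β (fun S => ∀ i, Gd9 (k i) (j i) (S ∪ P i) (T i)) X := by
    ext S
    rw [mem_filter, mem_clF, mem_SxT]
    tauto
  have e3 : ((clF B α β (fun _ => True) X).card : ℝ) =
      ∑ γ ∈ Γ, ((SG (dtB d3b B) (SxT B) γ X).card : ℝ) := by
    rw [card_fine, Nat.cast_sum]
    refine sum_congr rfl fun γ _ => ?_
    congr 2
    ext S
    rw [mem_sgF]
    exact ⟨fun h => h.1, fun h => ⟨h, trivial⟩⟩
  rw [e1, e2, e3, card_fine, Nat.cast_sum, mul_sum]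
  have h1 : ∑ γ ∈ Γ, (κ₀ * ((SG (dtB d3b B) (SxT B) γ X).card : ℝ) -
      ε / Fintype.card (Bool ⊕ B → ZMod 3) * X) ≤
      ∑ γ ∈ Γ, ((sgF B γ (fun S => ∀ i, Gd9 (k i) (j i) (S ∪ P i) (T i)) X).card : ℝ) :=
    sum_le_sum fun γ _ => h0 γ X (hXt γ)
  rw [sum_sub_distrib, sum_const, nsmul_eq_mul] at h1
  have h2 : (Γ.card : ℝ) * (ε / Fintype.card (Bool ⊕ B → ZMod 3) * X) ≤ ε * X := by
    have h3 : (Γ.card : ℝ) ≤ Fintype.card (Bool ⊕ B → ZMod 3) := by
      exact_mod_cast card_le_univ Γ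
    calc (Γ.card : ℝ) * (ε / Fintype.card (Bool ⊕ B → ZMod 3) * X)
        ≤ Fintype.card (Bool ⊕ B → ZMod 3) * (ε / Fintype.card (Bool ⊕ B → ZMod 3) * X) :=
          mul_le_mul_of_nonneg_right h3 (by positivity)
      _ = ε * X := by field_simp
  linarith

end

end Pool.Agent.Lib.MP_1a91b9_ntN
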