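import Pool.Agent.Lib.MP_1a91b9_ntN.DJ.Mom
import Pool.Agent.Lib.MP_1a91b9_ntN.DJ.Lim

/-!
# MP_1a91b9_nt (multicubic base fields), part D: the density of the sets of primes for which all the
kernels are minimal
-/

set_option autoImplicit false
set_option linter.unusedSectionVars false

namespace Pool.Agent.Lib.MP_1a91b9_ntN

open Finset Pool.Agent.Lib.MP_1a91b9_ntH Pool.Agent.Lib.MP_1a91b9_ntK Pool.Agent.Lib.MP_1a91b9_ntK.Da

noncomputable section

section One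

variable {ι κ : Type} [DecidableEq ι] [Fintype κ] {E : Type} [Fintype E] [DecidableEq E]

/-- The size of the kernel, divided by `3` if it is not `1`. -/
def kz (D : Dt ι κ) (c : κ → ZMod 3) (P : κ → E → ZMod 3) (R : Matrix E E (ZMod 3))
    (S : Finset ι) : ℕ := if D.kB c P R S = 1 then 1 else D.kB c P R S / 3

theorem kz_pow [DecidableEq κ] (D : Dt ι κ) (c : κ → ZMod 3) (P : κ → E → ZMod 3)
    (R : Matrix E E (ZMod 3)) (S : Finset ι) : ∃ r, kz D c P R S = 3 ^ r := by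
  obtain ⟨r, hr⟩ := kB_pow D c P R S
  rw [kz]
  split_ifs with h
  · exact ⟨0, (pow_zero 3).symm⟩
  · rcases r with _ | r
    · exact absurd hr h
    · exact ⟨r, by rw [hr, pow_succ]; omega⟩

theorem kz_mul [DecidableEq κ] (D : Dt ι κ) {c : κ → ZMod 3} {P : κ → E → ZMod 3}
    {R : Matrix E E (ZMod 3)} {S : Finset ι} (hne : S ≠ ∅) {γ : E → ZMod 3}
    (h1 : ∀ j, ∑ e, P j e * γ e = c j)
    (h2 : ∀ e, ∑ j, P j e * (∑ q ∈ S, D.a q j) - ∑ f, R e f * γ f = 0) :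
    D.kB c P R S = 3 * kz D c P R S := by
  have h3 := triv_mulVec D h1 h2
  obtain ⟨q, hq⟩ := nonempty_iff_ne_empty.2 hne
  have h4 : D.kB c P R S ≠ 1 := by
    intro h5
    rw [Dt.kB, Fintype.card_eq_one_iff] at h5
    obtain ⟨x, hx⟩ := h5
    have h6 := hx ⟨_, h3⟩
    have h7 := hx ⟨0, Matrix.mulVec_zero _⟩
    rw [← h7] at h6
    have h8 := congrFun (congrArg Subtype.val h6) (Sum.inl ⟨q, hq⟩)
    exact one_ne_zero h8
  obtain ⟨r, hr⟩ := kB_pow D c P R S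
  rw [kz, if_neg h4]
  rcases r with _ | r
  · exact absurd hr h4
  · rw [hr, pow_succ]
    omega

end One

variable {A : Type} [Fintype A] [DecidableEq A] {ι : Type} [DecidableEq ι]
  {κ : Type} [Fintype κ] [DecidableEq κ] {E : A → Type} [∀ a, Fintype (E a)]
  [∀ a, DecidableEq (E a)]

open Classical in
/-- The size of the kernel of the `a`-th matrix, divided by `3` if there is a trivial vector. -/
def xP (D : Dt ι κ) (c : A → κ → ZMod 3) (P : ∀ a, κ → E a → ZMod 3)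
    (R : ∀ a, Matrix (E a) (E a) (ZMod 3)) (α : κ → ZMod 3) (a : A) (S : Finset ι) : ℕ :=
  if Triv (c a) (P a) (R a) α then kz D (c a) (P a) (R a) S else D.kB (c a) (P a) (R a) S

open Classical in
/-- The factor of the `a`-th matrix. -/
def tP (c : A → κ → ZMod 3) (P : ∀ a, κ → E a → ZMod 3)
    (R : ∀ a, Matrix (E a) (E a) (ZMod 3)) (α : κ → ZMod 3) (a : A) : ℕ :=
  if Triv (c a) (P a) (R a) α then 3 else 1

theorem xP_pow (D : Dt ι κ) (c : A → κ → ZMod 3) (P : ∀ a, κ → E a → ZMod 3)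
    (R : ∀ a, Matrix (E a) (E a) (ZMod 3)) (α : κ → ZMod 3) (a : A) (S : Finset ι) :
    ∃ r, xP D c P R α a S = 3 ^ r := by
  classical
  rw [xP]
  split_ifs
  · exact kz_pow D _ _ _ S
  · exact kB_pow D _ _ _ S

theorem xP_mul {D : Dt ι κ} {Z : ℕ → Finset (Finset ι)} {c : A → κ → ZMod 3}
    {P : ∀ a, κ → E a → ZMod 3} {R : ∀ a, Matrix (E a) (E a) (ZMod 3)} {γ : κ → ZMod 3} {X : ℕ}
    {S : Finset ι} (hS : S ∈ SG D Z γ X) (hne : S ≠ ∅) (a : A) :
    D.kB (c a) (P a) (R a) S = tP c P R γ a * xP D c P R γ a S := by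
  classical
  rw [tP, xP]
  split_ifs with h
  · obtain ⟨γ', h1, h2⟩ := h
    refine kz_mul D hne h1 fun e => ?_
    simp only [(mem_SG.1 hS).2]
    exact h2 e
  · rw [one_mul]

/-- The joint moments of the normalised sizes. -/
theorem mom_xP {D : Dt ι κ} {Z : ℕ → Finset (Finset ι)} (hD : EngD D Z) (hM : MeanD D Z)
    {c : A → κ → ZMod 3} (hc : Function.Injective c) {P : ∀ a, κ → E a → ZMod 3}
    {R : ∀ a, Matrix (E a) (E a) (ZMod 3)} (hR : ∀ a e f, R a e f = R a f e)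
    (hP : ∀ a, ∀ x : E a → ZMod 3, (∀ j, ∑ e, P a j e * x e = 0) → x = 0) (γ : κ → ZMod 3)
    (k : A → ℕ) :
    MV (SG D Z γ) (fun S => ∏ a, (xP D c P R γ a S : ℝ) ^ k a) (∏ a, (Nk3 (k a) : ℝ)) := by
  classical
  intro ε hε
  set F : Finset ι → ℝ := fun S => ∏ a, (xP D c P R γ a S : ℝ) ^ k a with hF
  set T : ℝ := ∏ a, (tP c P R γ a : ℝ) ^ k a with hT
  have ht1 : ∀ a, (1 : ℝ) ≤ tP c P R γ a := by
    intro a
    rw [tP]
    split_ifs <;> norm_num
  have hT1 : 1 ≤ T := by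
    calc (1 : ℝ) = ∏ _a : A, (1 : ℝ) := prod_const_one.symm
      _ ≤ _ := prod_le_prod (fun _ _ => zero_le_one) fun a _ => one_le_pow₀ (ht1 a)
  have hnu : ∏ a, nuP c P R γ k a = T * ∏ a, (Nk3 (k a) : ℝ) := by
    rw [hT, ← prod_mul_distrib]
    refine prod_congr rfl fun a _ => ?_
    rw [nuP, tP]
    split_ifs
    · push_cast
      ring
    · rw [Nat.cast_one, one_pow, one_mul, mul_one]
  obtain ⟨X0, h0⟩ := mom_P hD hM hc hR hP γ k (ε / 2) (by positivity)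
  have hmul : ∀ X : ℕ, ∀ S ∈ SG D Z γ X, S ≠ ∅ → (kP c P R D k S : ℝ) = T * F S := by
    intro X S hS hne
    rw [kP, Nat.cast_prod, hT, hF, ← prod_mul_distrib]
    refine prod_congr rfl fun a _ => ?_
    rw [xP_mul hS hne a]
    push_cast
    rw [mul_pow]
  set M : ℝ := |T * F ∅ - (kP c P R D k ∅ : ℝ)| with hM'
  obtain ⟨X1, hX1⟩ := exists_nat_gt (2 * M / ε)
  refine ⟨max X0 X1, fun X hX => ?_⟩
  have h2 := h0 X (le_trans (le_max_left _ _) hX)
  rw [hnu] at h2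
  have h3' : M ≤ ε / 2 * X := by
    have h4 : (X1 : ℝ) ≤ X := by exact_mod_cast le_trans (le_max_right _ _) hX
    have h5 := hX1.le.trans h4
    rw [div_le_iff₀ hε] at h5
    linarith
  have h6 : |T * ∑ S ∈ SG D Z γ X, F S - ∑ S ∈ SG D Z γ X, (kP c P R D k S : ℝ)| ≤ M := by
    rw [mul_sum, ← sum_sub_distrib]
    have h7 : ∀ S ∈ SG D Z γ X, S ≠ ∅ → T * F S - (kP c P R D k S : ℝ) = 0 := by
      intro S hS hne
      rw [hmul X S hS hne, sub_self]
    have h8 : ∑ S ∈ SG D Z γ X, (T * F S - (kP c P R D k S : ℝ)) =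
        if (∅ : Finset ι) ∈ SG D Z γ X then T * F ∅ - (kP c P R D k ∅ : ℝ) else 0 := by
      split_ifs with hm
      · exact sum_eq_single_of_mem ∅ hm fun S hS hne => h7 S hS hne
      · exact sum_eq_zero fun S hS => h7 S hS fun h => hm (h ▸ hS)
    rw [h8]
    split_ifs with hm
    · exact le_of_eq hM'.symm
    · rw [abs_zero]
      exact abs_nonneg _
  have h9 : |T * (∑ S ∈ SG D Z γ X, F S - (∏ a, (Nk3 (k a) : ℝ)) * (SG D Z γ X).card)| ≤
      ε * X := by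
    have e : T * (∑ S ∈ SG D Z γ X, F S - (∏ a, (Nk3 (k a) : ℝ)) * (SG D Z γ X).card) =
        (T * ∑ S ∈ SG D Z γ X, F S - ∑ S ∈ SG D Z γ X, (kP c P R D k S : ℝ)) +
        (∑ S ∈ SG D Z γ X, (kP c P R D k S : ℝ) -
          (T * ∏ a, (Nk3 (k a) : ℝ)) * (SG D Z γ X).card) := by
      ring
    rw [e]
    refine (abs_add_le _ _).trans ?_
    linarith
  rw [abs_mul, abs_of_pos (by linarith : 0 < T)] at h9
  exact (le_mul_of_one_le_left (abs_nonneg _) hT1).trans h9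

open Classical in
/-- **Part D: all the kernels are minimal with lower density at least `cinf3 ^ #A` in every class.** -/
theorem dens_P [Nonempty A] {D : Dt ι κ} {Z : ℕ → Finset (Finset ι)} (hD : EngD D Z)
    (hM : MeanD D Z) {c : A → κ → ZMod 3} (hc : Function.Injective c)
    {P : ∀ a, κ → E a → ZMod 3} {R : ∀ a, Matrix (E a) (E a) (ZMod 3)}
    (hR : ∀ a e f, R a e f = R a f e)
    (hP : ∀ a, ∀ x : E a → ZMod 3, (∀ j, ∑ e, P a j e * x e = 0) → x = 0) (γ : κ → ZMod 3)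
    {κ₀ : ℝ} (hκ : κ₀ < cinf3 ^ Fintype.card A) (ε : ℝ) (hε : 0 < ε) :
    ∃ X₀ : ℕ, ∀ X : ℕ, X₀ ≤ X →
      κ₀ * ((SG D Z γ X).card : ℝ) - ε * X ≤
        ((SG D Z γ X).filter fun S => S ≠ ∅ ∧ ∀ a, D.kB (c a) (P a) (R a) S =
          tP c P R γ a).card := by
  obtain ⟨X0, h0⟩ := dens_prod (x := fun a S => xP D c P R γ a S)
    (fun a S => xP_pow D c P R _ a S) (mom_xP hD hM hc hR hP γ) hκ (ε / 2) (by positivity)
  obtain ⟨X1, hX1⟩ := exists_nat_gt (2 / ε)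
  refine ⟨X0 + X1, fun X hX => ?_⟩
  have h1 := h0 X ((Nat.le_add_right _ _).trans hX)
  have h2 : (1 : ℝ) ≤ ε / 2 * X := by
    have h4 : (X1 : ℝ) ≤ X := by exact_mod_cast (Nat.le_add_left _ _).trans hX
    have h5 := hX1.le.trans h4
    rw [div_le_iff₀ hε] at h5
    linarith
  have h4 : (SG D Z γ X).filter (fun S => ∀ a, xP D c P R γ a S = 1) ⊆
      insert ∅ ((SG D Z γ X).filter fun S => S ≠ ∅ ∧ ∀ a, D.kB (c a) (P a) (R a) S =
          tP c P R γ a) := by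
    intro S hS
    rw [mem_filter] at hS
    rw [mem_insert, mem_filter]
    by_cases h : S = ∅
    · exact Or.inl h
    · refine Or.inr ⟨hS.1, h, fun a => ?_⟩
      rw [xP_mul hS.1 h a, hS.2 a, mul_one]
  have h5 := (card_le_card h4).trans (card_insert_le _ _)
  have h6 : (((SG D Z γ X).filter (fun S => ∀ a, xP D c P R γ a S = 1)).card : ℝ) ≤
      ((SG D Z γ X).filter fun S => S ≠ ∅ ∧ ∀ a, D.kB (c a) (P a) (R a) S =
          tP c P R γ a).card + 1 := by exact_mod_cast h5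
  linarith

end

end Pool.Agent.Lib.MP_1a91b9_ntN
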