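import Pool.Agent.Lib.MP_1a91b9_ntK2.D.Gn

/-!
# MP_1a91b9_nt (multicubic base fields), part D: the engine in an abstract form

The symbols and the class coordinates `a q j`, `j : κ`. The class coordinates contain the symbols at the
fixed primes of `B`.
-/

set_option autoImplicit false
set_option linter.unusedSectionVars false

namespace Pool.Agent.Lib.MP_1a91b9_ntN

open Finset Pool.Agent.Lib.MP_1a91b9_ntH Pool.Agent.Lib.MP_1a91b9_ntK Pool.Agent.Lib.MP_1a91b9_ntK.Da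

noncomputable section

/-- The symbols and the class coordinates. -/
structure Dt (ι κ : Type) where
  s : ι → ι → ZMod 3
  a : ι → κ → ZMod 3

section Defs

variable {ι κ : Type} [DecidableEq ι] [Fintype κ] [DecidableEq κ] {L : Type}

/-- The linear term. -/
def Dt.lin (D : Dt ι κ) (c : κ → ZMod 3) (q : ι) : ZMod 3 := ∑ j, c j * D.a q j

/-- The exponent of a labelling of `S`. -/
def Dt.eL (D : Dt ι κ) (Phi : L → L → ZMod 3) (c : L → κ → ZMod 3) (S : Finset ι) (f : S → L) :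
    ZMod 3 :=
  ∑ j : S, D.lin (c (f j)) j + ∑ j : S, ∑ l : S, Phi (f j) (f l) * D.s j l

/-- Unlinked sets of labels. -/
def UnlL (Phi : L → L → ZMod 3) (U : Finset L) : Prop :=
  ∀ l ∈ U, ∀ m ∈ U, Phi l m + Phi m l = 0

/-- The hypotheses on the exponents of the pairs. -/
structure OKL (Phi : L → L → ZMod 3) (m : ℕ) : Prop where
  diag : ∀ l, Phi l l = 0
  two : 2 ≤ m
  k1 : ∀ U : Finset L, UnlL Phi U → U.card ≤ m
  k2 : ∀ U : Finset L, UnlL Phi U → U.card = m → ∀ x, x ∉ U →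
    ∃ l ∈ U, ∃ l' ∈ U, Phi l x + Phi x l ≠ Phi l' x + Phi x l'

open Classical in
/-- The maximal unlinked sets on which the linear term vanishes. -/
def MsL [Fintype L] (Phi : L → L → ZMod 3) (m : ℕ) (c : L → κ → ZMod 3) : Finset (Finset L) :=
  univ.filter fun U => UnlL Phi U ∧ U.card = m ∧ ∀ l ∈ U, c l = 0

theorem mem_MsL [Fintype L] {Phi : L → L → ZMod 3} {m : ℕ} {c : L → κ → ZMod 3} {U : Finset L} :
    U ∈ MsL Phi m c ↔ UnlL Phi U ∧ U.card = m ∧ ∀ l ∈ U, c l = 0 := by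
  classical
  rw [MsL, mem_filter]
  exact ⟨fun h => h.2, fun h => ⟨mem_univ _, h⟩⟩

/-- The conclusion of the engine for the sets `Z`. -/
def EngD (D : Dt ι κ) (Z : ℕ → Finset (Finset ι)) : Prop :=
  ∀ (L : Type) [Fintype L] [DecidableEq L] (Phi : L → L → ZMod 3) (m : ℕ) (c : L → κ → ZMod 3),
    OKL Phi m → ∀ ε : ℝ, 0 < ε → ∃ X₀ : ℕ, ∀ X : ℕ, X₀ ≤ X →
      ‖∑ S ∈ Z X, ((m : ℂ)⁻¹) ^ S.card * ∑ f : S → L, e3 (D.eL Phi c S f) -
        ((MsL Phi m c).card : ℂ) * ((Z X).card : ℂ)‖ ≤ ε * X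

/-- The mean values of the nontrivial characters are zero. -/
def MeanD (D : Dt ι κ) (Z : ℕ → Finset (Finset ι)) : Prop :=
  ∀ ψ : κ → ZMod 3, ψ ≠ 0 → ∀ ε : ℝ, 0 < ε → ∃ X₀ : ℕ, ∀ X : ℕ, X₀ ≤ X →
    ‖∑ S ∈ Z X, e3 (∑ q ∈ S, D.lin ψ q)‖ ≤ ε * X

end Defs

/-! ### The instance -/

section Inst

variable {ι : Type} [DecidableEq ι]

/-- The class coordinates: `a`, `b` and the symbols at the primes of `B`. -/
def dtB (D : Dat3b ι) (B : Finset ι) : Dt ι (Bool ⊕ B) where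
  s := D.s
  a q j := Sum.elim (fun x => if x then D.b q else D.a q) (fun p => D.s q p) j

/-- The extension of the coordinates at `B` by zero. -/
def xB (B : Finset ι) (c : Bool ⊕ B → ZMod 3) (p : ι) : ZMod 3 :=
  if h : p ∈ B then c (Sum.inr ⟨p, h⟩) else 0

theorem xB_coe (B : Finset ι) (c : Bool ⊕ B → ZMod 3) (p : B) : xB B c p = c (Sum.inr p) := by
  rw [xB, dif_pos p.2]

theorem dtB_lin (D : Dat3b ι) (B : Finset ι) (c : Bool ⊕ B → ZMod 3) (q : ι) :
    (dtB D B).lin c q = D.exb B (xB B c) (c (Sum.inl false)) (c (Sum.inl true)) q := by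
  rw [Dt.lin, Fintype.sum_sum_type, Fintype.sum_bool, Dat3b.exb]
  have h1 : ∑ p ∈ B, xB B c p * D.s q p = ∑ p : B, c (Sum.inr p) * D.s q p := by
    rw [← sum_coe_sort B fun p => xB B c p * D.s q p]
    exact sum_congr rfl fun p _ => by rw [xB_coe]
  rw [h1]
  show c (Sum.inl true) * D.b q + c (Sum.inl false) * D.a q + ∑ p : B, c (Sum.inr p) * D.s q p = _
  ring

variable {L : Type}

/-- The label system. -/
def lsB (B : Finset ι) (Phi : L → L → ZMod 3) (m : ℕ) (c : L → Bool ⊕ B → ZMod 3) : LS3b L ι where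
  Phi := Phi
  c := fun l => c l (Sum.inl false)
  d := fun l => c l (Sum.inl true)
  t := fun l => xB B (c l)
  B := B
  m := m

theorem lsB_OK (B : Finset ι) {Phi : L → L → ZMod 3} {m : ℕ} (h : OKL Phi m)
    (c : L → Bool ⊕ B → ZMod 3) : (lsB B Phi m c).toLS3.OK where
  diag := h.diag
  two := h.two
  k1 := h.k1
  k2 := h.k2

theorem lsB_eS (D : Dat3b ι) (B : Finset ι) (Phi : L → L → ZMod 3) (m : ℕ)
    (c : L → Bool ⊕ B → ZMod 3) (S : Finset ι) (f : S → L) :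
    D.eSb (lsB B Phi m c) S f = (dtB D B).eL Phi c S f := by
  unfold Dat3b.eSb Dt.eL
  congr 1
  refine sum_congr rfl fun j _ => ?_
  rw [dtB_lin]
  rfl

theorem lsB_Ms [Fintype L] (B : Finset ι) (Phi : L → L → ZMod 3) (m : ℕ)
    (c : L → Bool ⊕ B → ZMod 3) : (lsB B Phi m c).Msb = MsL Phi m c := by
  ext U
  rw [LS3b.mem_Msb, LS3.mem_Us, mem_MsL]
  have h1 : (lsB B Phi m c).Lin0b U ↔ ∀ l ∈ U, c l = 0 := by
    refine forall₂_congr fun l _ => ?_
    constructor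
    · rintro ⟨h1, h2, h3⟩
      funext j
      rcases j with j | p
      · cases j
        · exact h1
        · exact h2
      · have h4 := h3 p p.2
        have h5 : xB B (c l) p = 0 := h4
        rw [xB_coe] at h5
        exact h5
    · intro h
      refine ⟨congrFun h _, congrFun h _, fun p hp => ?_⟩
      show xB B (c l) p = 0
      rw [h, xB]
      split_ifs <;> rfl
  rw [h1]
  exact ⟨fun h => ⟨h.1.1, h.1.2, h.2⟩, fun h => ⟨⟨h.1, h.2.1⟩, h.2.2⟩⟩

variable [PS ι]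

/-- The engine for the sets prime to `B`. -/
theorem eng_dtB {D : Dat3b ι} (hD : D.OKb) {C₂ : ℝ}
    (hC₂ : ∀ Y : ℕ, ((Sx ι Y).card : ℝ) ≤ C₂ * Y) (B : Finset ι) :
    EngD (dtB D B) (SxT B) := by
  intro L _ _ Phi m c hP ε hε
  obtain ⟨X₀, h0⟩ := Pool.Agent.Lib.MP_1a91b9_ntK2.engine3b D hD hC₂ (lsB B Phi m c)
    (lsB_OK B hP c) ε hε
  refine ⟨X₀, fun X hX => ?_⟩
  have h1 := h0 X hX
  simp only [lsB_eS, lsB_Ms] at h1
  exact h1

/-- The mean values. -/
theorem mean_dtB {D : Dat3b ι} (hD : D.OKb) (B : Finset ι) : MeanD (dtB D B) (SxT B) := by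
  classical
  intro ψ hψ ε hε
  set T : Finset ι := B.filter fun p => xB B ψ p ≠ 0 with hT
  have hne : T ≠ ∅ ∨ ψ (Sum.inl false) ≠ 0 ∨ ψ (Sum.inl true) ≠ 0 := by
    by_contra hcon
    push Not at hcon
    obtain ⟨h1, h2, h3⟩ := hcon
    apply hψ
    funext j
    rcases j with j | p
    · cases j
      · exact h2
      · exact h3
    · by_contra h4
      have h5 : (p : ι) ∈ T := by
        rw [hT, mem_filter, xB_coe]
        exact ⟨p.2, h4⟩
      rw [h1] at h5
      exact absurd h5 (notMem_empty _)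
  obtain ⟨X₀, h0⟩ := hD.h3b B T (xB B ψ) (ψ (Sum.inl false)) (ψ (Sum.inl true))
    (filter_subset _ _) (fun p hp => (mem_filter.1 hp).2) hne ε hε
  refine ⟨X₀, fun X hX => ?_⟩
  have h1 := h0 X hX
  have h2 : ∀ q : ι, D.exb T (xB B ψ) (ψ (Sum.inl false)) (ψ (Sum.inl true)) q =
      (dtB D B).lin ψ q := by
    intro q
    rw [dtB_lin, Dat3b.exb, Dat3b.exb, hT, sum_filter]
    congr 1
    refine sum_congr rfl fun p _ => ?_
    split_ifs with h
    · rfl
    · push Not at h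
      rw [h, zero_mul]
  simp only [h2, ← e3_sum] at h1
  exact h1

end Inst

end

end Pool.Agent.Lib.MP_1a91b9_ntN
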