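import Pool.Agent.Lib.MP_1a91b9_ntN.DJ.Eng

/-!
# MP_1a91b9_nt (multicubic base fields), part D: the number of main terms for a general border

The matrices are bordered by the columns `∑ P j e * a j`, `e ∈ E`, with the corner `R`. `m e` is the
label of the column `e`.
-/

set_option autoImplicit false
set_option linter.unusedSectionVars false

namespace Pool.Agent.Lib.MP_1a91b9_ntN

open Finset Pool.Agent.Lib.MP_1a91b9_ntH Pool.Agent.Lib.MP_1a91b9_ntK Pool.Agent.Lib.MP_1a91b9_ntK.Da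

noncomputable section

variable {κ E : Type} [Fintype κ] [DecidableEq κ] [Fintype E] [DecidableEq E] {k : ℕ}

/-- The exponent of the corner. -/
def RF (R : Matrix E E (ZMod 3)) (m : E → Lab3 k) : ZMod 3 :=
  ∑ e, ∑ f, R e f * ((m e).2 ⬝ᵥ (m f).1)

/-- The linear term at the class character `j`. -/
def cE (c : κ → ZMod 3) (P : κ → E → ZMod 3) (m : E → Lab3 k) (l : Lab3 k) (j : κ) : ZMod 3 :=
  c j * Q3 l + ∑ e, P j e * B3 l (m e)

/-- The exceptional case, in which the average is larger by the factor `3 ^ k`. -/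
def Triv (c : κ → ZMod 3) (P : κ → E → ZMod 3) (R : Matrix E E (ZMod 3)) (α : κ → ZMod 3) : Prop :=
  ∃ γ : E → ZMod 3, (∀ j, ∑ e, P j e * γ e = c j) ∧
    ∀ e, ∑ j, P j e * α j - ∑ f, R e f * γ f = 0

variable {c : κ → ZMod 3} {P : κ → E → ZMod 3} {R : Matrix E E (ZMod 3)} {α : κ → ZMod 3}

/-! ### Double counting -/

open Classical in
/-- The maximal unlinked sets. -/
def MU (k : ℕ) : Finset (Finset (Lab3 k)) := univ.filter fun U => Unl3 U ∧ U.card = 3 ^ k

theorem mem_MU {U : Finset (Lab3 k)} : U ∈ MU k ↔ Unl3 U ∧ U.card = 3 ^ k := by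
  classical
  rw [MU, mem_filter]
  exact ⟨fun h => h.2, fun h => ⟨mem_univ _, h⟩⟩

theorem sh3_sh3 (l : Lab3 k) (U : Finset (Lab3 k)) : sh3 (-l) (sh3 l U) = U := by
  ext m
  rw [mem_sh3, mem_sh3, neg_add_cancel_right]

theorem sh3_sh3' (l : Lab3 k) (U : Finset (Lab3 k)) : sh3 l (sh3 (-l) U) = U := by
  ext m
  rw [mem_sh3, mem_sh3, add_neg_cancel_right]

/-- The shift of `W` by `u`. -/
theorem mem_sh3n {l0 l : Lab3 k} {U : Finset (Lab3 k)} : l ∈ sh3 (-l0) U ↔ l - l0 ∈ U := by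
  rw [mem_sh3, sub_eq_add_neg]

theorem double_count_w (g : Finset (Lab3 k) → ℂ) :
    3 ^ k * ∑ U ∈ MU k, g U = ∑ W ∈ Lgs3 k, ∑ l : Lab3 k, g (sh3 (-l) W) := by
  classical
  have h1 : ∑ U ∈ MU k, ∑ _l ∈ U, g U =
      ∑ l : Lab3 k, ∑ U ∈ (MU k).filter (fun U => l ∈ U), g U := by
    refine sum_comm' ?_
    intro U l
    rw [mem_filter]
    exact ⟨fun h => ⟨h, mem_univ _⟩, fun h => h.1⟩
  have h2 : ∀ U ∈ MU k, ∑ _l ∈ U, g U = 3 ^ k * g U := fun U hU => by
    rw [sum_const, nsmul_eq_mul, (mem_MU.1 hU).2]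
    push_cast
    rfl
  rw [sum_congr rfl h2, ← mul_sum] at h1
  rw [h1, sum_comm (s := Lgs3 k)]
  refine sum_congr rfl fun l _ => ?_
  refine sum_nbij' (fun U => sh3 l U) (fun U => sh3 (-l) U) ?_ ?_ ?_ ?_ ?_
  · intro U hU
    obtain ⟨hU, c⟩ := mem_filter.1 hU
    obtain ⟨a, b⟩ := mem_MU.1 hU
    rw [mem_Lgs3]
    exact ⟨Unl_sh3 a, by rw [card_sh3, b], by rw [mem_sh3, zero_add]; exact c⟩
  · intro W hW
    rw [mem_Lgs3] at hW
    rw [mem_filter, mem_MU]
    refine ⟨⟨Unl_sh3 hW.unl, by rw [card_sh3, hW.card]⟩, ?_⟩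
    rw [mem_sh3, add_neg_cancel]
    exact hW.zero
  · intro U _
    exact sh3_sh3 l U
  · intro U _
    exact sh3_sh3' l U
  · intro U _
    rw [sh3_sh3]

/-! ### The condition -/

/-- The linear term is constant on the shift of `W` by `u`. -/
def Cd (c : κ → ZMod 3) (P : κ → E → ZMod 3) (W : Finset (Lab3 k)) (u : Lab3 k)
    (m : E → Lab3 k) : Prop :=
  ∀ x ∈ W, ∀ j, c j * B3 x u + ∑ e, P j e * B3 x (m e) = 0

omit [Fintype κ] [DecidableEq κ] [DecidableEq E] in
theorem cE_add {x u : Lab3 k} (hx : Q3 x = 0) (m : E → Lab3 k) (j : κ) :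
    cE c P m (x + u) j = cE c P m u j + (c j * B3 x u + ∑ e, P j e * B3 x (m e)) := by
  unfold cE
  have h1 : ∑ e, P j e * B3 (x + u) (m e) =
      ∑ e, P j e * B3 x (m e) + ∑ e, P j e * B3 u (m e) := by
    rw [← sum_add_distrib]
    refine sum_congr rfl fun e _ => ?_
    rw [B3_add', mul_add]
  rw [h1, Q3_add, hx, zero_add]
  ring

omit [Fintype κ] [DecidableEq κ] [DecidableEq E] in
theorem cond_iff {W : Finset (Lab3 k)} (hW : Mx3 W) (u : Lab3 k) (m : E → Lab3 k)
    (c0 : κ → ZMod 3) :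
    (∀ l ∈ sh3 (-u) W, cE c P m l = c0) ↔ c0 = cE c P m u ∧ Cd c P W u m := by
  constructor
  · intro h
    have h1 : cE c P m u = c0 := h u (by
      rw [mem_sh3n, sub_self]
      exact hW.zero)
    refine ⟨h1.symm, fun x hx j => ?_⟩
    have h2 : cE c P m (x + u) = c0 := h _ (by
      rw [mem_sh3n, add_sub_cancel_right]
      exact hx)
    have h3 := cE_add (c := c) (P := P) (hW.unl.Q hW.zero hx) (u := u) m j
    rw [h2, ← h1] at h3
    exact add_eq_left.1 h3.symm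
  · rintro ⟨h1, h2⟩ l hl
    rw [mem_sh3n] at hl
    rw [h1]
    funext j
    have h3 := cE_add (c := c) (P := P) (hW.unl.Q hW.zero hl) (u := u) m j
    rw [sub_add_cancel, h2 _ hl j, add_zero] at h3
    exact h3

theorem B3_smul' (l m : Lab3 k) (s : ZMod 3) : B3 l (s • m) = s * B3 l m := by
  rw [B3_comm, B3_smul, B3_comm]

/-- The labels of the columns for `c` in the image of `P`. -/
def sft (γ : E → ZMod 3) (u : Lab3 k) (w : E → Lab3 k) : E → Lab3 k := fun e => w e - γ e • u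

omit [DecidableEq κ] [Fintype κ] [DecidableEq E] in
theorem Cd_sft (hP : ∀ x : E → ZMod 3, (∀ j, ∑ e, P j e * x e = 0) → x = 0)
    {W : Finset (Lab3 k)} (hW : Mx3 W) {γ : E → ZMod 3} (hγ : ∀ j, ∑ e, P j e * γ e = c j)
    (u : Lab3 k) (w : E → Lab3 k) : Cd c P W u (sft γ u w) ↔ ∀ e, w e ∈ W := by
  have h1 : ∀ x j, c j * B3 x u + ∑ e, P j e * B3 x (sft γ u w e) = ∑ e, P j e * B3 x (w e) := by
    intro x j
    have h2 : ∑ e, P j e * B3 x (sft γ u w e) =
        ∑ e, P j e * B3 x (w e) - c j * B3 x u := by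
      rw [← hγ j, sum_mul, ← sum_sub_distrib]
      refine sum_congr rfl fun e _ => ?_
      rw [sft, B3_sub, B3_smul']
      ring
    rw [h2]
    ring
  unfold Cd
  simp only [h1]
  constructor
  · intro h e
    rw [hW.mem_iff]
    intro x hx
    have h2 := congrFun (hP (fun e => B3 x (w e)) fun j => h x hx j) e
    rw [B3_comm]
    exact h2
  · intro h x hx j
    refine sum_eq_zero fun e _ => ?_
    rw [hW.unl.B hW.zero hx (h e), mul_zero]

omit [DecidableEq κ] [Fintype κ] [DecidableEq E] in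
theorem Cd_no (hP : ∀ x : E → ZMod 3, (∀ j, ∑ e, P j e * x e = 0) → x = 0)
    {W : Finset (Lab3 k)} (hW : Mx3 W) (hc : ¬ ∃ γ : E → ZMod 3, ∀ j, ∑ e, P j e * γ e = c j)
    (u : Lab3 k) (m : E → Lab3 k) : Cd c P W u m ↔ u ∈ W ∧ ∀ e, m e ∈ W := by
  constructor
  · intro h
    have h1 : ∀ x ∈ W, B3 x u = 0 := by
      intro x hx
      by_contra hne
      refine hc ⟨fun e => -(B3 x u)⁻¹ * B3 x (m e), fun j => ?_⟩
      have h2 := h x hx j
      have h3 : ∑ e, P j e * (-(B3 x u)⁻¹ * B3 x (m e)) =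
          -(B3 x u)⁻¹ * ∑ e, P j e * B3 x (m e) := by
        rw [mul_sum]
        exact sum_congr rfl fun e _ => by ring
      have h4 : (B3 x u)⁻¹ * B3 x u = 1 := inv_mul_cancel₀ hne
      rw [h3]
      linear_combination (-(B3 x u)⁻¹) * h2 + c j * h4
    refine ⟨hW.mem_iff.2 fun x hx => by rw [B3_comm]; exact h1 x hx, fun e => ?_⟩
    rw [hW.mem_iff]
    intro x hx
    have h2 := congrFun (hP (fun e => B3 x (m e)) fun j => by
      have h3 := h x hx j
      rwa [h1 x hx, mul_zero, zero_add] at h3) e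
    rw [B3_comm]
    exact h2
  · rintro ⟨hu, hm⟩ x hx j
    rw [hW.unl.B hW.zero hx hu, mul_zero, zero_add]
    refine sum_eq_zero fun e _ => ?_
    rw [hW.unl.B hW.zero hx (hm e), mul_zero]

/-! ### The exponent -/

omit [DecidableEq E] in
theorem RF_mem (hR : ∀ e f, R e f = R f e) {W : Finset (Lab3 k)} (hW : Mx3 W) {w : E → Lab3 k}
    (hw : ∀ e, w e ∈ W) : RF R w = 0 := by
  have h1 : RF R w + RF R w = 0 := by
    have h2 : RF R w = ∑ e, ∑ f, R e f * ((w f).2 ⬝ᵥ (w e).1) := by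
      rw [RF, sum_comm]
      refine sum_congr rfl fun e _ => sum_congr rfl fun f _ => ?_
      rw [hR e f]
    nth_rewrite 2 [h2]
    rw [RF, ← sum_add_distrib]
    refine sum_eq_zero fun e _ => ?_
    rw [← sum_add_distrib]
    refine sum_eq_zero fun f _ => ?_
    have h3 := hW.unl.B hW.zero (hw e) (hw f)
    rw [B3] at h3
    rw [dotProduct_comm (w e).2, dotProduct_comm (w f).2, ← mul_add, add_comm, h3, mul_zero]
  have hd : ∀ x : ZMod 3, x + x = 0 → x = 0 := by decide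
  exact hd _ h1

omit [DecidableEq E] in
theorem RF_sft (hR : ∀ e f, R e f = R f e) (γ : E → ZMod 3) (u : Lab3 k) (w : E → Lab3 k) :
    RF R (sft γ u w) = (∑ e, γ e * ∑ f, R e f * γ f) * Q3 u -
      (∑ e, (∑ f, R e f * γ f) * B3 u (w e)) + RF R w := by
  have h1 : ∀ e f, R e f * ((sft γ u w e).2 ⬝ᵥ (sft γ u w f).1) =
      (γ e * (R e f * γ f)) * Q3 u - R e f * γ f * ((w e).2 ⬝ᵥ u.1) -
      R f e * γ e * (u.2 ⬝ᵥ (w f).1) + R e f * ((w e).2 ⬝ᵥ (w f).1) := by
    intro e f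
    simp only [sft, Prod.snd_sub, Prod.fst_sub, Prod.smul_fst, Prod.smul_snd, sub_dotProduct,
      dotProduct_sub, dotProduct_smul, smul_dotProduct, smul_eq_mul, Q3]
    rw [hR f e, dotProduct_comm u.2 u.1]
    ring
  have h2 : ∑ e, ∑ f, R f e * γ e * (u.2 ⬝ᵥ (w f).1) =
      ∑ e, ∑ f, R e f * γ f * (u.2 ⬝ᵥ (w e).1) := sum_comm
  unfold RF
  simp only [h1, sum_add_distrib, sum_sub_distrib]
  rw [h2]
  have h3 : ∑ e, (∑ f, R e f * γ f) * B3 u (w e) =
      ∑ e, ∑ f, R e f * γ f * ((w e).2 ⬝ᵥ u.1) + ∑ e, ∑ f, R e f * γ f * (u.2 ⬝ᵥ (w e).1) := by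
    rw [← sum_add_distrib]
    refine sum_congr rfl fun e _ => ?_
    rw [← sum_add_distrib, sum_mul]
    refine sum_congr rfl fun f _ => ?_
    rw [B3, dotProduct_comm u.1, dotProduct_comm (w e).1]
    ring
  have h4 : (∑ e, γ e * ∑ f, R e f * γ f) * Q3 u =
      ∑ e, ∑ f, (γ e * (R e f * γ f)) * Q3 u := by
    rw [sum_mul]
    refine sum_congr rfl fun e _ => ?_
    rw [mul_sum, sum_mul]
  rw [h3, h4]
  ring

omit [DecidableEq κ] [DecidableEq E] in
theorem cE_sft {γ : E → ZMod 3} (hγ : ∀ j, ∑ e, P j e * γ e = c j) (u : Lab3 k)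
    (w : E → Lab3 k) : ∑ j, cE c P (sft γ u w) u j * α j =
      -(∑ e, γ e * ∑ j, P j e * α j) * Q3 u + ∑ e, (∑ j, P j e * α j) * B3 u (w e) := by
  have h1 : ∀ j, cE c P (sft γ u w) u j * α j =
      -(∑ e, γ e * (P j e * α j)) * Q3 u + ∑ e, P j e * α j * B3 u (w e) := by
    intro j
    unfold cE
    have h2 : ∑ e, P j e * B3 u (sft γ u w e) =
        ∑ e, P j e * B3 u (w e) - (∑ e, P j e * γ e) * (2 * Q3 u) := by
      rw [sum_mul, ← sum_sub_distrib]
      refine sum_congr rfl fun e _ => ?_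
      rw [sft, B3_sub, B3_smul', B3_self]
      ring
    rw [h2, hγ j]
    have h5 : ∑ e, γ e * (P j e * α j) = c j * α j := by
      rw [← hγ j, sum_mul]
      exact sum_congr rfl fun e _ => by ring
    have h6 : ∑ e, P j e * α j * B3 u (w e) = (∑ e, P j e * B3 u (w e)) * α j := by
      rw [sum_mul]
      exact sum_congr rfl fun e _ => by ring
    rw [h5, h6]
    ring
  rw [sum_congr rfl fun j _ => h1 j, sum_add_distrib, ← sum_mul, sum_neg_distrib, sum_comm]
  congr 1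
  · congr 2
    exact sum_congr rfl fun e _ => (mul_sum _ _ _).symm
  · rw [sum_comm]
    exact sum_congr rfl fun e _ => (sum_mul _ _ _).symm

/-- The exponent. -/
def ex (c : κ → ZMod 3) (P : κ → E → ZMod 3) (R : Matrix E E (ZMod 3)) (α : κ → ZMod 3)
    (u : Lab3 k) (m : E → Lab3 k) : ZMod 3 := RF R m + ∑ j, cE c P m u j * α j

/-- The obstruction to the exceptional case. -/
def tau (P : κ → E → ZMod 3) (R : Matrix E E (ZMod 3)) (α : κ → ZMod 3) (γ : E → ZMod 3) (e : E) :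
    ZMod 3 := ∑ j, P j e * α j - ∑ f, R e f * γ f

omit [DecidableEq κ] [DecidableEq E] in
theorem ex_sft (hR : ∀ e f, R e f = R f e) {W : Finset (Lab3 k)} (hW : Mx3 W)
    {γ : E → ZMod 3} (hγ : ∀ j, ∑ e, P j e * γ e = c j) (u : Lab3 k) {w : E → Lab3 k}
    (hw : ∀ e, w e ∈ W) : ex c P R α u (sft γ u w) =
      -(∑ e, γ e * tau P R α γ e) * Q3 u + ∑ e, tau P R α γ e * B3 u (w e) := by
  unfold ex
  rw [RF_sft hR, cE_sft hγ, RF_mem hR hW hw, add_zero]
  simp only [tau, mul_sub, sub_mul, sum_sub_distrib]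
  ring

omit [DecidableEq κ] [DecidableEq E] in
theorem ex_mem (hR : ∀ e f, R e f = R f e) {W : Finset (Lab3 k)} (hW : Mx3 W) {u : Lab3 k}
    (hu : u ∈ W) {m : E → Lab3 k} (hm : ∀ e, m e ∈ W) : ex c P R α u m = 0 := by
  unfold ex
  rw [RF_mem hR hW hm, zero_add]
  refine sum_eq_zero fun j _ => ?_
  rw [cE, hW.unl.Q hW.zero hu, mul_zero, zero_add, sum_eq_zero fun e _ => by
    rw [hW.unl.B hW.zero hu (hm e), mul_zero], zero_mul]

/-! ### The sum over `m` and `u` -/

open Classical in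
/-- The contribution of the subspace `W`. -/
def GW (c : κ → ZMod 3) (P : κ → E → ZMod 3) (R : Matrix E E (ZMod 3)) (α : κ → ZMod 3)
    (W : Finset (Lab3 k)) : ℂ :=
  ∑ u : Lab3 k, ∑ m : E → Lab3 k, if Cd c P W u m then e3 (ex c P R α u m) else 0

theorem sum_W {W : Finset (Lab3 k)} (hW : Mx3 W) {t : ZMod 3} (ht : t ≠ 0) (u : Lab3 k) :
    ∑ x ∈ W, e3 (t * B3 u x) = if u ∈ W then (3 ^ k : ℂ) else 0 := by
  have h1 : ∀ x, t * B3 u x = B3 (t • u) x := fun x => (B3_smul t u x).symm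
  simp only [h1]
  split_ifs with hu
  · rw [sum_B3_mem fun w hw => hW.unl.B hW.zero (hW.smul_mem t hu) hw, hW.card]
    push_cast
    rfl
  · refine hW.sum_eq_zero fun h => hu ?_
    have h2 := hW.smul_mem t⁻¹ h
    rwa [smul_smul, inv_mul_cancel₀ ht, one_smul] at h2

omit [DecidableEq κ] in
open Classical in
theorem GW_im (hR : ∀ e f, R e f = R f e)
    (hP : ∀ x : E → ZMod 3, (∀ j, ∑ e, P j e * x e = 0) → x = 0) {W : Finset (Lab3 k)}
    (hW : Mx3 W) {γ : E → ZMod 3} (hγ : ∀ j, ∑ e, P j e * γ e = c j) :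
    GW c P R α W = 3 ^ k * ((3 ^ k) ^ Fintype.card E *
      (if tau P R α γ = 0 then 3 ^ k else 1)) := by
  have h1 : ∀ u : Lab3 k, (∑ m : E → Lab3 k, if Cd c P W u m then e3 (ex c P R α u m) else 0) =
      ∑ w ∈ Fintype.piFinset fun _ : E => W,
        e3 (-(∑ e, γ e * tau P R α γ e) * Q3 u + ∑ e, tau P R α γ e * B3 u (w e)) := by
    intro u
    let σ : (E → Lab3 k) ≃ (E → Lab3 k) := Equiv.subRight fun e => γ e • u
    rw [← Equiv.sum_comp σ]
    have h2 : ∀ w, σ w = sft γ u w := fun w => rfl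
    simp only [h2, Cd_sft hP hW hγ]
    rw [← sum_filter]
    refine sum_congr ?_ fun w hw => ?_
    · ext w
      rw [mem_filter, Fintype.mem_piFinset]
      exact ⟨fun h => h.2, fun h => ⟨mem_univ _, h⟩⟩
    · rw [ex_sft hR hW hγ u (Fintype.mem_piFinset.1 hw)]
  unfold GW
  rw [sum_congr rfl fun u _ => h1 u]
  split_ifs with hτ
  · have h2 : ∀ u : Lab3 k, ∑ w ∈ Fintype.piFinset fun _ : E => W,
        e3 (-(∑ e, γ e * tau P R α γ e) * Q3 u + ∑ e, tau P R α γ e * B3 u (w e)) =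
        (3 ^ k) ^ Fintype.card E := by
      intro u
      have h3 : ∀ w : E → Lab3 k,
          -(∑ e, γ e * tau P R α γ e) * Q3 u + ∑ e, tau P R α γ e * B3 u (w e) = 0 := by
        intro w
        rw [hτ]
        simp
      simp only [h3, e3_zero, sum_const, nsmul_eq_mul, mul_one, Fintype.card_piFinset, prod_const,
        card_univ, hW.card]
      push_cast
      rfl
    rw [sum_congr rfl fun u _ => h2 u, sum_const, nsmul_eq_mul, card_univ, card_Lab3]
    push_cast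
    have h4 : (9 : ℂ) ^ k = 3 ^ k * 3 ^ k := by
      rw [← mul_pow]
      norm_num
    rw [h4]
    ring
  · obtain ⟨e₀, he₀⟩ := Function.ne_iff.1 hτ
    have h2 : ∀ u : Lab3 k, ∑ w ∈ Fintype.piFinset fun _ : E => W,
        e3 (-(∑ e, γ e * tau P R α γ e) * Q3 u + ∑ e, tau P R α γ e * B3 u (w e)) =
        if u ∈ W then (3 ^ k) ^ Fintype.card E else 0 := by
      intro u
      have h3 : ∑ w ∈ Fintype.piFinset fun _ : E => W,
          e3 (-(∑ e, γ e * tau P R α γ e) * Q3 u + ∑ e, tau P R α γ e * B3 u (w e)) =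
          e3 (-(∑ e, γ e * tau P R α γ e) * Q3 u) *
            ∏ e, ∑ x ∈ W, e3 (tau P R α γ e * B3 u x) := by
        rw [prod_univ_sum, mul_sum]
        refine sum_congr rfl fun w _ => ?_
        rw [e3_add, e3_sum]
      have h4 : ∀ e, ∑ x ∈ W, e3 (tau P R α γ e * B3 u x) =
          if tau P R α γ e = 0 then 3 ^ k else if u ∈ W then (3 ^ k : ℂ) else 0 := by
        intro e
        split_ifs with h5 h6
        · simp only [h5, zero_mul, e3_zero, sum_const, nsmul_eq_mul, mul_one, hW.card]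
          push_cast
          rfl
        · rw [sum_W hW h5, if_pos h6]
        · rw [sum_W hW h5, if_neg h6]
      rw [h3, prod_congr rfl fun e _ => h4 e]
      split_ifs with hu
      · rw [hW.unl.Q hW.zero hu, mul_zero, e3_zero, one_mul]
        simp only [ite_self, prod_const, card_univ]
      · rw [prod_eq_zero (mem_univ e₀) (if_neg he₀), mul_zero]
    rw [sum_congr rfl fun u _ => h2 u, sum_ite_mem, univ_inter, sum_const, nsmul_eq_mul, hW.card,
      mul_one]
    push_cast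
    rfl

omit [DecidableEq κ] in
open Classical in
theorem GW_no (hR : ∀ e f, R e f = R f e)
    (hP : ∀ x : E → ZMod 3, (∀ j, ∑ e, P j e * x e = 0) → x = 0) {W : Finset (Lab3 k)}
    (hW : Mx3 W) (hc : ¬ ∃ γ : E → ZMod 3, ∀ j, ∑ e, P j e * γ e = c j) :
    GW c P R α W = 3 ^ k * (3 ^ k) ^ Fintype.card E := by
  have h1 : ∀ u : Lab3 k, (∑ m : E → Lab3 k, if Cd c P W u m then e3 (ex c P R α u m) else 0) =
      if u ∈ W then (3 ^ k) ^ Fintype.card E else 0 := by
    intro u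
    simp only [Cd_no hP hW hc]
    split_ifs with hu
    · simp only [hu, true_and]
      rw [← sum_filter]
      have h2 : (univ : Finset (E → Lab3 k)).filter (fun m => ∀ e, m e ∈ W) =
          Fintype.piFinset fun _ : E => W := by
        ext m
        rw [mem_filter, Fintype.mem_piFinset]
        exact ⟨fun h => h.2, fun h => ⟨mem_univ _, h⟩⟩
      rw [h2, sum_congr rfl fun m hm => by
        rw [ex_mem hR hW hu (Fintype.mem_piFinset.1 hm), e3_zero]]
      rw [sum_const, nsmul_eq_mul, mul_one, Fintype.card_piFinset, prod_const, card_univ, hW.card]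
      push_cast
      rfl
    · simp only [hu, false_and, if_false, sum_const_zero]
  unfold GW
  rw [sum_congr rfl fun u _ => h1 u, sum_ite_mem, univ_inter, sum_const, nsmul_eq_mul, hW.card]
  push_cast
  rfl

omit [DecidableEq κ] in
open Classical in
theorem GW_eq (hR : ∀ e f, R e f = R f e)
    (hP : ∀ x : E → ZMod 3, (∀ j, ∑ e, P j e * x e = 0) → x = 0) {W : Finset (Lab3 k)}
    (hW : Mx3 W) : GW c P R α W = 3 ^ k * ((3 ^ k) ^ Fintype.card E *
      (if Triv c P R α then 3 ^ k else 1)) := by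
  by_cases hc : ∃ γ : E → ZMod 3, ∀ j, ∑ e, P j e * γ e = c j
  · obtain ⟨γ, hγ⟩ := hc
    have h1 : Triv c P R α ↔ tau P R α γ = 0 := by
      constructor
      · rintro ⟨γ', h2, h3⟩
        have h4 : γ - γ' = 0 := hP _ fun j => by
          simp only [Pi.sub_apply, mul_sub, sum_sub_distrib]
          rw [hγ, h2, sub_self]
        have h5 : γ = γ' := sub_eq_zero.1 h4
        funext e
        rw [h5]
        exact h3 e
      · intro h2
        exact ⟨γ, hγ, fun e => congrFun h2 e⟩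
    rw [GW_im hR hP hW hγ, if_congr h1 rfl rfl]
  · have h1 : ¬ Triv c P R α := fun ⟨γ, h2, _⟩ => hc ⟨γ, h2⟩
    rw [GW_no hR hP hW hc, if_neg h1, mul_one]

open Classical in
/-- The maximal unlinked sets on which the linear term is the constant `c0`. -/
def MsE (c : κ → ZMod 3) (P : κ → E → ZMod 3) (m : E → Lab3 k) (c0 : κ → ZMod 3) :
    Finset (Finset (Lab3 k)) :=
  univ.filter fun U => Unl3 U ∧ U.card = 3 ^ k ∧ ∀ l ∈ U, cE c P m l = c0

theorem mem_MsE {c : κ → ZMod 3} {P : κ → E → ZMod 3} {m : E → Lab3 k} {c0 : κ → ZMod 3}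
    {U : Finset (Lab3 k)} :
    U ∈ MsE c P m c0 ↔ Unl3 U ∧ U.card = 3 ^ k ∧ ∀ l ∈ U, cE c P m l = c0 := by
  classical
  rw [MsE, mem_filter]
  exact ⟨fun h => h.2, fun h => ⟨mem_univ _, h⟩⟩

/-- The main term of the class character `c0`. -/
def TE (k : ℕ) (c : κ → ZMod 3) (P : κ → E → ZMod 3) (R : Matrix E E (ZMod 3))
    (c0 : κ → ZMod 3) : ℂ :=
  ∑ m : E → Lab3 k, e3 (RF R m) * ((MsE c P m c0).card : ℂ)

open Classical in
/-- The number of main terms. -/
theorem TE_sum (hR : ∀ e f, R e f = R f e)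
    (hP : ∀ x : E → ZMod 3, (∀ j, ∑ e, P j e * x e = 0) → x = 0) (α : κ → ZMod 3) :
    ∑ c0 : κ → ZMod 3, e3 (∑ j, c0 j * α j) * TE k c P R c0 =
      (3 ^ k) ^ Fintype.card E * (Nk3 k * (if Triv c P R α then 3 ^ k else 1)) := by
  have h1 : ∀ (c0 : κ → ZMod 3) (m : E → Lab3 k), ((MsE c P m c0).card : ℂ) =
      ∑ U ∈ MU k, if ∀ l ∈ U, cE c P m l = c0 then 1 else 0 := by
    intro c0 m
    rw [← sum_filter, sum_const, nsmul_eq_mul, mul_one]
    congr 2
    ext U
    rw [mem_filter, mem_MsE, mem_MU]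
    exact ⟨fun h => ⟨⟨h.1, h.2.1⟩, h.2.2⟩, fun h => ⟨h.1.1, h.1.2, h.2⟩⟩
  let g : Finset (Lab3 k) → ℂ := fun U => ∑ c0 : κ → ZMod 3, ∑ m : E → Lab3 k,
    if ∀ l ∈ U, cE c P m l = c0 then e3 (RF R m + ∑ j, c0 j * α j) else 0
  have h2 : ∑ c0 : κ → ZMod 3, e3 (∑ j, c0 j * α j) * TE k c P R c0 = ∑ U ∈ MU k, g U := by
    simp only [TE, h1, g]
    rw [sum_comm (s := MU k)]
    refine sum_congr rfl fun c0 _ => ?_
    rw [sum_comm (s := MU k), mul_sum]
    refine sum_congr rfl fun m _ => ?_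
    rw [mul_sum, mul_sum]
    refine sum_congr rfl fun U _ => ?_
    split_ifs
    · rw [e3_add]
      ring
    · ring
  have h3 : ∀ W ∈ Lgs3 k, ∑ u : Lab3 k, g (sh3 (-u) W) = GW c P R α W := by
    intro W hW
    rw [mem_Lgs3] at hW
    unfold GW
    refine sum_congr rfl fun u _ => ?_
    simp only [g, cond_iff hW]
    rw [sum_comm]
    refine sum_congr rfl fun m _ => ?_
    by_cases hC : Cd c P W u m
    · simp only [hC, and_true, if_true]
      rw [sum_ite_eq' univ (cE c P m u), if_pos (mem_univ _)]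
      rfl
    · simp only [hC, and_false, if_false, sum_const_zero]
  have h4 : (3 ^ k : ℂ) ≠ 0 := pow_ne_zero _ (by norm_num)
  refine mul_left_cancel₀ h4 ?_
  rw [h2, double_count_w, sum_congr rfl h3, sum_congr rfl fun W hW =>
    GW_eq hR hP (mem_Lgs3.1 hW), sum_const, card_Lgs3, nsmul_eq_mul]
  ring

end

end Pool.Agent.Lib.MP_1a91b9_ntN
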