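import Pool.Agent.Lib.MP_1a91b9_ntN.DJ.Lab

/-!
# MP_1a91b9_nt (multicubic base fields), part D: the maximal unlinked sets with constant linear
term are products
-/

set_option autoImplicit false
set_option linter.unusedSectionVars false

namespace Pool.Agent.Lib.MP_1a91b9_ntN

open Finset Pool.Agent.Lib.MP_1a91b9_ntH Pool.Agent.Lib.MP_1a91b9_ntK Pool.Agent.Lib.MP_1a91b9_ntK.Da

noncomputable section

variable {A : Type} [Fintype A] [DecidableEq A] {k : A → ℕ} {κ : Type} [Fintype κ]
  [DecidableEq κ] {E : A → Type} [∀ a, Fintype (E a)] [∀ a, DecidableEq (E a)]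

/-- The linear term of the product system. -/
def cP (c : A → κ → ZMod 3) (P : ∀ a, κ → E a → ZMod 3) (m : ∀ a, E a → Lab3 (k a)) (l : LabP k)
    (j : κ) : ZMod 3 := ∑ a, cE (c a) (P a) (m a) (l a) j

variable {c : A → κ → ZMod 3} {P : ∀ a, κ → E a → ZMod 3} {m : ∀ a, E a → Lab3 (k a)}

theorem cE_four {k : ℕ} {E : Type} [Fintype E] (c : κ → ZMod 3) (P : κ → E → ZMod 3)
    (m : E → Lab3 k) (u x y : Lab3 k) (j : κ) :
    cE c P m (u + x + y) j - cE c P m (u + x) j - (cE c P m (u + y) j - cE c P m u j) =
      c j * B3 x y := by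
  unfold cE
  simp only [Q3_add, B3_add', mul_add, sum_add_distrib]
  generalize ∑ e, P j e * B3 u (m e) = s1
  generalize ∑ e, P j e * B3 x (m e) = s2
  generalize ∑ e, P j e * B3 y (m e) = s3
  ring

theorem cP_four (u x y : LabP k) (j : κ) :
    cP c P m (u + x + y) j - cP c P m (u + x) j - (cP c P m (u + y) j - cP c P m u j) =
      ∑ a, c a j * B3 (x a) (y a) := by
  simp only [cP, ← sum_sub_distrib]
  exact sum_congr rfl fun a _ => cE_four (c a) (P a) (m a) (u a) (x a) (y a) j

/-- The projection of a set of labels. -/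
def pj (U : Finset (LabP k)) (a : A) : Finset (Lab3 (k a)) := U.image fun l => l a

theorem mem_pj {U : Finset (LabP k)} {a : A} {x : Lab3 (k a)} :
    x ∈ pj U a ↔ ∃ l ∈ U, l a = x := by
  rw [pj, mem_image]

/-- **The maximal unlinked sets with constant linear term are products.** -/
theorem dec (hc : Function.Injective c) {U : Finset (LabP k)} (hU : UnlP U)
    (hcd : U.card = ∏ a, 3 ^ k a) {c0 : κ → ZMod 3} (h0 : ∀ l ∈ U, cP c P m l = c0) :
    U = Fintype.piFinset (pj U) ∧ ∀ a, Unl3 (pj U a) ∧ (pj U a).card = 3 ^ k a := by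
  classical
  have hne : U.Nonempty := by
    rw [← card_pos, hcd]
    exact prod_pos fun a _ => by positivity
  obtain ⟨u, hu⟩ := hne
  set W : Finset (LabP k) := U.image fun l => l - u with hW
  have hmW : ∀ x, x ∈ W ↔ x + u ∈ U := by
    intro x
    rw [hW, mem_image]
    constructor
    · rintro ⟨l, hl, rfl⟩
      rw [sub_add_cancel]
      exact hl
    · intro h
      exact ⟨x + u, h, add_sub_cancel_right x u⟩
  have hM : MxP W := by
    refine ⟨?_, ?_, ?_⟩
    · intro x hx y hy
      rw [hmW] at hx hy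
      have h1 := hU _ hx _ hy
      rwa [add_sub_add_right_eq_sub] at h1
    · rw [hW, card_image_of_injective _ sub_left_injective, hcd]
    · rw [hmW, zero_add]
      exact hu
  have hst : ∀ j, ∀ x ∈ W, ∀ y ∈ W, ∑ a, c a j * B3 (x a) (y a) = 0 := by
    intro j x hx y hy
    have hxy := hM.add_mem hx hy
    rw [hmW] at hx hy hxy
    have e1 : u + x + y = x + y + u := by abel
    have e2 : u + x = x + u := add_comm _ _
    have e3 : u + y = y + u := add_comm _ _
    rw [← cP_four (c := c) (P := P) (m := m) u x y j, e1, e2, e3, h0 _ hx, h0 _ hy, h0 _ hxy,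
      h0 _ hu, sub_self]
  have hfm : ∀ a, ∀ x ∈ W, fm (ia a) x ∈ W := fun a x hx => hM.fm_mem hc hst a hx
  have hsum : ∀ (s : Finset A) (x : A → LabP k), (∀ a ∈ s, x a ∈ W) → ∑ a ∈ s, x a ∈ W := by
    intro s x
    induction s using Finset.induction_on with
    | empty =>
      intro _
      rw [sum_empty]
      exact hM.zero
    | insert b s hb ih =>
      intro h
      rw [sum_insert hb]
      exact hM.add_mem (h b (mem_insert_self _ _)) (ih fun a ha => h a (mem_insert_of_mem ha))
  have hprod : U = Fintype.piFinset (pj U) := by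
    ext l
    rw [Fintype.mem_piFinset]
    constructor
    · exact fun hl a => mem_pj.2 ⟨l, hl, rfl⟩
    · intro hl
      have h1 : ∀ a, ∃ v ∈ U, v a = l a := fun a => mem_pj.1 (hl a)
      choose v hv hv2 using h1
      have h2 : ∀ a, fm (ia a) (v a - u) ∈ W := by
        intro a
        refine hfm a _ ((hmW _).2 ?_)
        rw [sub_add_cancel]
        exact hv a
      have h3 : ∑ a, fm (ia a) (v a - u) = l - u := by
        funext b
        rw [Finset.sum_apply, sum_eq_single b]
        · show ia b b • (v b b - u b) = l b - u b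
          rw [ia, Pi.single_eq_same, one_smul, hv2]
        · intro a _ hab
          show ia a b • _ = (0 : Lab3 (k b))
          rw [ia, Pi.single_eq_of_ne hab.symm, zero_smul]
        · exact fun h => absurd (mem_univ _) h
      have h4 := hsum univ (fun a => fm (ia a) (v a - u)) fun a _ => h2 a
      rw [h3, hmW, sub_add_cancel] at h4
      exact h4
  have hunl : ∀ a, Unl3 (pj U a) := by
    intro a x hx y hy
    obtain ⟨l, hl, rfl⟩ := mem_pj.1 hx
    obtain ⟨l', hl', rfl⟩ := mem_pj.1 hy
    have h1 : l - l' ∈ W := by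
      have h2 : l - u ∈ W := (hmW _).2 (by rw [sub_add_cancel]; exact hl)
      have h3 : l' - u ∈ W := (hmW _).2 (by rw [sub_add_cancel]; exact hl')
      have h4 := hM.sub_mem h2 h3
      rwa [sub_sub_sub_cancel_right] at h4
    have h2 := hM.Q (hfm a _ h1)
    have h3 : QP (fm (ia a) (l - l')) = Q3 (l a - l' a) := by
      rw [QP, sum_eq_single a]
      · show Q3 (ia a a • (l a - l' a)) = _
        rw [ia, Pi.single_eq_same, one_smul]
      · intro b _ hb
        show Q3 (ia a b • (l b - l' b)) = 0
        rw [ia, Pi.single_eq_of_ne hb, zero_smul, Q3_zero]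
      · exact fun h => absurd (mem_univ _) h
    rw [← h3, h2]
  refine ⟨hprod, fun a => ⟨hunl a, ?_⟩⟩
  have hle : ∀ a, (pj U a).card ≤ 3 ^ k a := fun a => K1 (hunl a)
  have hpos : ∀ a, 0 < (pj U a).card := fun a => card_pos.2 ⟨u a, mem_pj.2 ⟨u, hu, rfl⟩⟩
  have hpr : ∏ a, (pj U a).card = ∏ a, 3 ^ k a := by
    rw [← Fintype.card_piFinset, ← hprod, hcd]
  by_contra hcon
  have h5 : ∏ a, (pj U a).card < ∏ a, 3 ^ k a :=
    prod_lt_prod (fun a _ => hpos a) (fun a _ => hle a) ⟨a, mem_univ a, lt_of_le_of_ne (hle a) hcon⟩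
  exact absurd hpr h5.ne

/-- The maximal unlinked sets of the product with the constant linear term `c0`. -/
def MsP (c : A → κ → ZMod 3) (P : ∀ a, κ → E a → ZMod 3) (m : ∀ a, E a → Lab3 (k a))
    (c0 : κ → ZMod 3) : Finset (Finset (LabP k)) := by
  classical exact univ.filter fun U => UnlP U ∧ U.card = ∏ a, 3 ^ k a ∧ ∀ l ∈ U, cP c P m l = c0

theorem mem_MsP {c0 : κ → ZMod 3} {U : Finset (LabP k)} :
    U ∈ MsP c P m c0 ↔ UnlP U ∧ U.card = ∏ a, 3 ^ k a ∧ ∀ l ∈ U, cP c P m l = c0 := by
  classical
  rw [MsP, mem_filter]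
  exact ⟨fun h => h.2, fun h => ⟨mem_univ _, h⟩⟩

theorem nonempty_MsE {k : ℕ} {E : Type} [Fintype E] [DecidableEq E] {c : κ → ZMod 3} {P : κ → E → ZMod 3}
    {m : E → Lab3 k} {c0 : κ → ZMod 3} {U : Finset (Lab3 k)} (h : U ∈ MsE c P m c0) :
    U.Nonempty := by
  rw [← card_pos, (mem_MsE.1 h).2.1]
  positivity

/-- **The count of the products.** -/
theorem card_MsP (hc : Function.Injective c) (c0 : κ → ZMod 3) :
    (MsP c P m c0).card = ∑ y : A → κ → ZMod 3, if ∑ a, y a = c0 then
      ∏ a, (MsE (c a) (P a) (m a) (y a)).card else 0 := by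
  classical
  have h1 : MsP c P m c0 = (univ.filter fun y : A → κ → ZMod 3 => ∑ a, y a = c0).biUnion fun y =>
      (Fintype.piFinset fun a => MsE (c a) (P a) (m a) (y a)).image fun V =>
        Fintype.piFinset V := by
    ext U
    rw [mem_MsP, mem_biUnion]
    constructor
    · rintro ⟨hU, hcd, h0⟩
      obtain ⟨hpr, hpa⟩ := dec hc hU hcd h0
      have hne : U.Nonempty := by
        rw [← card_pos, hcd]
        exact prod_pos fun a _ => by positivity
      obtain ⟨u, hu⟩ := hne
      have hcst : ∀ a, ∀ x ∈ pj U a, cE (c a) (P a) (m a) x = cE (c a) (P a) (m a) (u a) := by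
        intro a x hx
        have h2 : Function.update u a x ∈ U := by
          rw [hpr, Fintype.mem_piFinset]
          intro b
          by_cases hb : b = a
          · subst hb
            rw [Function.update_self]
            exact hx
          · rw [Function.update_of_ne hb]
            exact mem_pj.2 ⟨u, hu, rfl⟩
        have h3 := h0 _ h2
        rw [← h0 _ hu] at h3
        funext j
        have h4 := congrFun h3 j
        simp only [cP] at h4
        rw [← add_sum_erase _ _ (mem_univ a), ← add_sum_erase _ _ (mem_univ a),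
          Function.update_self] at h4
        have h5 : ∑ b ∈ univ.erase a, cE (c b) (P b) (m b) (Function.update u a x b) j =
            ∑ b ∈ univ.erase a, cE (c b) (P b) (m b) (u b) j :=
          sum_congr rfl fun b hb => by rw [Function.update_of_ne (ne_of_mem_erase hb)]
        rw [h5] at h4
        exact add_right_cancel h4
      refine ⟨fun a => cE (c a) (P a) (m a) (u a), mem_filter.2 ⟨mem_univ _, ?_⟩, ?_⟩
      · rw [← h0 _ hu]
        funext j
        rw [Finset.sum_apply]
        rfl
      · rw [mem_image]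
        exact ⟨pj U, Fintype.mem_piFinset.2 fun a =>
          mem_MsE.2 ⟨(hpa a).1, (hpa a).2, hcst a⟩, hpr.symm⟩
    · rintro ⟨y, hy, hV⟩
      rw [mem_image] at hV
      obtain ⟨V, hV, rfl⟩ := hV
      have hV' : ∀ a, Unl3 (V a) ∧ (V a).card = 3 ^ k a ∧
          ∀ l ∈ V a, cE (c a) (P a) (m a) l = y a :=
        fun a => mem_MsE.1 (Fintype.mem_piFinset.1 hV a)
      refine ⟨?_, ?_, ?_⟩
      · intro l hl l' hl'
        rw [Fintype.mem_piFinset] at hl hl'
        exact sum_eq_zero fun a _ => (hV' a).1 _ (hl a) _ (hl' a)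
      · rw [Fintype.card_piFinset]
        exact prod_congr rfl fun a _ => (hV' a).2.1
      · intro l hl
        rw [Fintype.mem_piFinset] at hl
        rw [← (mem_filter.1 hy).2]
        funext j
        rw [Finset.sum_apply]
        exact sum_congr rfl fun a _ => by rw [(hV' a).2.2 _ (hl a)]
  have hrec : ∀ (y : A → κ → ZMod 3) (V : ∀ a, Finset (Lab3 (k a))),
      V ∈ (Fintype.piFinset fun a => MsE (c a) (P a) (m a) (y a)) → ∀ a,
      (Fintype.piFinset V).image (fun f => f a) = V a := by
    intro y V hV a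
    rw [Fintype.mem_piFinset] at hV
    ext x
    rw [mem_image]
    constructor
    · rintro ⟨f, hf, rfl⟩
      exact Fintype.mem_piFinset.1 hf a
    · intro hx
      choose v hv using fun b => nonempty_MsE (hV b)
      refine ⟨Function.update v a x, Fintype.mem_piFinset.2 fun b => ?_, Function.update_self ..⟩
      by_cases hb : b = a
      · subst hb
        rw [Function.update_self]
        exact hx
      · rw [Function.update_of_ne hb]
        exact hv b
  rw [h1, card_biUnion, sum_filter]
  · refine sum_congr rfl fun y _ => ?_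
    split_ifs with hy
    · rw [card_image_of_injOn, Fintype.card_piFinset]
      intro V hV V' hV' hVV
      funext a
      rw [← hrec y V (mem_coe.1 hV) a, ← hrec y V' (mem_coe.1 hV') a]
      exact congrArg (fun s : Finset (LabP k) => s.image fun f => f a) hVV
    · rfl
  · intro y _ y' _ hne
    refine disjoint_left.2 fun U h2 h3 => hne ?_
    rw [mem_image] at h2 h3
    obtain ⟨V, hV, rfl⟩ := h2
    obtain ⟨V', hV', hVV⟩ := h3
    funext a
    have h4 : V a = V' a := by
      rw [← hrec y V hV a, ← hrec y' V' hV' a, hVV]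
    have h5 := Fintype.mem_piFinset.1 hV a
    have h6 := Fintype.mem_piFinset.1 hV' a
    rw [← h4] at h6
    obtain ⟨x, hx⟩ := nonempty_MsE h5
    rw [← (mem_MsE.1 h5).2.2 x hx, (mem_MsE.1 h6).2.2 x hx]

end

end Pool.Agent.Lib.MP_1a91b9_ntN
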