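import Pool.Agent.Lib.MP_1a91b9_ntN.DJ.Mat

/-!
# MP_1a91b9_nt (multicubic base fields), part D: products of label systems

`LabP k` is the product of the labels `Lab3 (k a)`, `a : A`, with the sum of the quadratic forms. A maximal
unlinked set on which the linear term is constant is a product, if the class vectors `c a` are distinct.
-/

set_option autoImplicit false
set_option linter.unusedSectionVars false

namespace Pool.Agent.Lib.MP_1a91b9_ntN

open Finset Pool.Agent.Lib.MP_1a91b9_ntH Pool.Agent.Lib.MP_1a91b9_ntK Pool.Agent.Lib.MP_1a91b9_ntK.Da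

noncomputable section

variable {A : Type} [Fintype A] [DecidableEq A]

/-- The labels. -/
abbrev LabP (k : A → ℕ) : Type := ∀ a, Lab3 (k a)

variable {k : A → ℕ}

/-- The quadratic form. -/
def QP (l : LabP k) : ZMod 3 := ∑ a, Q3 (l a)

/-- Its polar form. -/
def BP (l m : LabP k) : ZMod 3 := ∑ a, B3 (l a) (m a)

theorem QP_add (l m : LabP k) : QP (l + m) = QP l + QP m + BP l m := by
  simp only [QP, BP, Pi.add_apply, Q3_add, sum_add_distrib]

theorem BP_add' (l m n : LabP k) : BP (l + m) n = BP l n + BP m n := by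
  simp only [BP, Pi.add_apply, B3_add', sum_add_distrib]

theorem BP_smul (t : ZMod 3) (l m : LabP k) : BP (t • l) m = t * BP l m := by
  simp only [BP, Pi.smul_apply, B3_smul, mul_sum]

/-- Unlinked sets. -/
def UnlP (U : Finset (LabP k)) : Prop := ∀ l ∈ U, ∀ m ∈ U, QP (l - m) = 0

/-- The numbering of the coordinates. -/
def sgP (k : A → ℕ) : (Σ a, Fin (k a)) ≃ Fin (∑ a, k a) :=
  Fintype.equivFinOfCardEq (by rw [Fintype.card_sigma]; simp)

/-- The first coordinates. -/
def co1 (l : LabP k) (s : Σ a, Fin (k a)) : ZMod 3 := (l s.1).1 s.2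

/-- The second coordinates. -/
def co2 (l : LabP k) (s : Σ a, Fin (k a)) : ZMod 3 := (l s.1).2 s.2

/-- The labels as one label. -/
def toL (k : A → ℕ) (l : LabP k) : Lab3 (∑ a, k a) :=
  (fun i => co1 l ((sgP k).symm i), fun i => co2 l ((sgP k).symm i))

theorem toL_fst (l : LabP k) (a : A) (j : Fin (k a)) : (toL k l).1 (sgP k ⟨a, j⟩) = (l a).1 j :=
  congrArg (co1 l) ((sgP k).symm_apply_apply ⟨a, j⟩)

theorem toL_snd (l : LabP k) (a : A) (j : Fin (k a)) : (toL k l).2 (sgP k ⟨a, j⟩) = (l a).2 j :=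
  congrArg (co2 l) ((sgP k).symm_apply_apply ⟨a, j⟩)

theorem toL_inj (k : A → ℕ) : Function.Injective (toL k) := by
  intro l m h
  funext a
  refine Prod.ext (funext fun j => ?_) (funext fun j => ?_)
  · rw [← toL_fst l a j, ← toL_fst m a j, h]
  · rw [← toL_snd l a j, ← toL_snd m a j, h]

theorem toL_add (l m : LabP k) : toL k (l + m) = toL k l + toL k m := rfl

theorem toL_sub (l m : LabP k) : toL k (l - m) = toL k l - toL k m := rfl

theorem toL_zero : toL k 0 = 0 := rfl

theorem sum_sgP (f : Fin (∑ a, k a) → ZMod 3) :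
    ∑ i, f i = ∑ a, ∑ j : Fin (k a), f (sgP k ⟨a, j⟩) := by
  rw [← Equiv.sum_comp (sgP k), Fintype.sum_sigma]

theorem Q3_toL (l : LabP k) : Q3 (toL k l) = QP l := by
  rw [Q3, dotProduct, sum_sgP, QP]
  refine sum_congr rfl fun a _ => ?_
  rw [Q3, dotProduct]
  refine sum_congr rfl fun j _ => ?_
  rw [toL_fst, toL_snd]

theorem B3_toL (l m : LabP k) : B3 (toL k l) (toL k m) = BP l m := by
  have h1 := Q3_add (toL k l) (toL k m)
  rw [← toL_add, Q3_toL, Q3_toL, Q3_toL, QP_add] at h1
  exact (add_left_cancel h1).symm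

/-- The set of labels as a set of labels of the sum. -/
def imL (U : Finset (LabP k)) : Finset (Lab3 (∑ a, k a)) := U.image (toL k)

theorem card_imL (U : Finset (LabP k)) : (imL U).card = U.card :=
  card_image_of_injective _ (toL_inj k)

theorem mem_imL {U : Finset (LabP k)} {l : LabP k} : toL k l ∈ imL U ↔ l ∈ U := by
  rw [imL, mem_image]
  exact ⟨fun ⟨m, hm, h⟩ => toL_inj k h ▸ hm, fun h => ⟨l, h, rfl⟩⟩

theorem Unl_imL {U : Finset (LabP k)} (h : UnlP U) : Unl3 (imL U) := by
  intro x hx y hy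
  rw [imL, mem_image] at hx hy
  obtain ⟨l, hl, rfl⟩ := hx
  obtain ⟨m, hm, rfl⟩ := hy
  rw [← toL_sub, Q3_toL]
  exact h l hl m hm

theorem prod_three_pow (k : A → ℕ) : ∏ a, 3 ^ k a = 3 ^ ∑ a, k a := prod_pow_eq_pow_sum _ _ _

/-- (K1) -/
theorem K1P {U : Finset (LabP k)} (h : UnlP U) : U.card ≤ ∏ a, 3 ^ k a := by
  have h1 := K1 (Unl_imL h)
  rwa [card_imL, ← prod_three_pow] at h1

/-- (K2) -/
theorem K2P {U : Finset (LabP k)} (h : UnlP U) (hc : U.card = ∏ a, 3 ^ k a) {x : LabP k}
    (c : ZMod 3) (hx : ∀ l ∈ U, QP (l - x) = c) : x ∈ U := by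
  rw [← mem_imL]
  refine K2 (Unl_imL h) (by rw [card_imL, hc, prod_three_pow]) c fun y hy => ?_
  rw [imL, mem_image] at hy
  obtain ⟨l, hl, rfl⟩ := hy
  rw [← toL_sub, Q3_toL]
  exact hx l hl

/-- A maximal unlinked set which contains `0`. -/
structure MxP (W : Finset (LabP k)) : Prop where
  unl : UnlP W
  card : W.card = ∏ a, 3 ^ k a
  zero : 0 ∈ W

theorem MxP.im {W : Finset (LabP k)} (h : MxP W) : Mx3 (imL W) where
  unl := Unl_imL h.unl
  card := by rw [card_imL, h.card, prod_three_pow]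
  zero := by rw [← toL_zero, mem_imL]; exact h.zero

theorem MxP.mem_iff {W : Finset (LabP k)} (h : MxP W) {l : LabP k} :
    l ∈ W ↔ ∀ w ∈ W, BP l w = 0 := by
  rw [← mem_imL, h.im.mem_iff]
  constructor
  · intro h1 w hw
    rw [← B3_toL]
    exact h1 _ (mem_imL.2 hw)
  · intro h1 y hy
    rw [imL, mem_image] at hy
    obtain ⟨w, hw, rfl⟩ := hy
    rw [B3_toL]
    exact h1 w hw

theorem MxP.add_mem {W : Finset (LabP k)} (h : MxP W) {l m : LabP k} (hl : l ∈ W) (hm : m ∈ W) :
    l + m ∈ W := by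
  rw [h.mem_iff] at hl hm ⊢
  intro w hw
  rw [BP_add', hl w hw, hm w hw, add_zero]

theorem MxP.smul_mem {W : Finset (LabP k)} (h : MxP W) (t : ZMod 3) {l : LabP k} (hl : l ∈ W) :
    t • l ∈ W := by
  rw [h.mem_iff] at hl ⊢
  intro w hw
  rw [BP_smul, hl w hw, mul_zero]

theorem MxP.sub_mem {W : Finset (LabP k)} (h : MxP W) {l m : LabP k} (hl : l ∈ W) (hm : m ∈ W) :
    l - m ∈ W := by
  have h1 := h.add_mem hl (h.smul_mem (-1) hm)
  rwa [neg_one_smul, ← sub_eq_add_neg] at h1

theorem MxP.Q {W : Finset (LabP k)} (h : MxP W) {l : LabP k} (hl : l ∈ W) : QP l = 0 := by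
  have h1 := h.unl l hl 0 h.zero
  rwa [sub_zero] at h1

/-- The product of a label with a function. -/
def fm (f : A → ZMod 3) (l : LabP k) : LabP k := fun a => f a • l a

theorem BP_fm (f : A → ZMod 3) (l m : LabP k) : BP (fm f l) m = ∑ a, f a * B3 (l a) (m a) := by
  rw [BP]
  refine sum_congr rfl fun a _ => ?_
  show B3 (f a • l a) (m a) = _
  rw [B3_smul]

theorem fm_mul (f g : A → ZMod 3) (l : LabP k) : fm (f * g) l = fm f (fm g l) :=
  funext fun a => mul_smul (f a) (g a) (l a)

theorem fm_add (f g : A → ZMod 3) (l : LabP k) : fm (f + g) l = fm f l + fm g l :=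
  funext fun a => add_smul (f a) (g a) (l a)

theorem fm_one (l : LabP k) : fm 1 l = l := funext fun a => one_smul _ (l a)

theorem fm_const (t : ZMod 3) (l : LabP k) : fm (fun _ => t) l = t • l := rfl

/-- The indicator function. -/
def ia (a : A) : A → ZMod 3 := Pi.single a 1

/-- The functions which preserve `W` separate the points: `W` is a product. -/
theorem MxP.fm_mem {κ : Type} {W : Finset (LabP k)} (h : MxP W) {c : A → κ → ZMod 3}
    (hc : Function.Injective c)
    (hst : ∀ j, ∀ x ∈ W, ∀ y ∈ W, ∑ a, c a j * B3 (x a) (y a) = 0) (a : A) {x : LabP k}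
    (hx : x ∈ W) : fm (ia a) x ∈ W := by
  have h1 : ∀ j, ∀ x ∈ W, fm (fun a => c a j) x ∈ W := by
    intro j x hx
    rw [h.mem_iff]
    intro y hy
    rw [BP_fm]
    exact hst j x hx y hy
  have h0 : ∀ z : ZMod 3, ∀ x ∈ W, fm (fun _ => z) x ∈ W := by
    intro z x hx
    rw [fm_const]
    exact h.smul_mem z hx
  have h2 : ∀ b, b ≠ a → ∃ j, c a j ≠ c b j := by
    intro b hb
    by_contra hcon
    push Not at hcon
    exact hb (hc (funext hcon)).symm
  choose j hj using h2
  set g : A → A → ZMod 3 := fun b =>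
    if hb : b ≠ a then (fun _ => (c a (j b hb) - c b (j b hb))⁻¹) *
      ((fun a' => c a' (j b hb)) + fun _ => -c b (j b hb)) else 1 with hg
  have h3 : ia a = ∏ b, g b := by
    funext a'
    rw [Finset.prod_apply]
    by_cases ha : a' = a
    · subst ha
      rw [ia, Pi.single_eq_same, prod_eq_one]
      intro b _
      by_cases hb : b ≠ a'
      · have h4 := hj b hb
        simp only [hg, dif_pos hb]
        show (c a' (j b hb) - c b (j b hb))⁻¹ * (c a' (j b hb) + -c b (j b hb)) = 1
        rw [← sub_eq_add_neg]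
        exact inv_mul_cancel₀ (sub_ne_zero.2 h4)
      · simp only [hg, dif_neg hb]
        rfl
    · rw [ia, Pi.single_eq_of_ne ha]
      refine (prod_eq_zero (mem_univ a') ?_).symm
      simp only [hg, dif_pos (show a' ≠ a from ha)]
      show (c a (j a' ha) - c a' (j a' ha))⁻¹ * (c a' (j a' ha) + -c a' (j a' ha)) = 0
      rw [add_neg_cancel, mul_zero]
  have h4 : ∀ s : Finset A, ∀ x ∈ W, fm (∏ b ∈ s, g b) x ∈ W := by
    intro s
    induction s using Finset.induction_on with
    | empty =>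
      intro x hx
      rw [prod_empty, fm_one]
      exact hx
    | insert b s hb ih =>
      intro x hx
      rw [prod_insert hb, fm_mul]
      by_cases hb' : b ≠ a
      · simp only [hg, dif_pos hb', fm_mul, fm_add]
        exact h0 _ _ (h.add_mem (h1 _ _ (ih x hx)) (h0 _ _ (ih x hx)))
      · simp only [hg, dif_neg hb', fm_one]
        exact ih x hx
  rw [h3]
  exact h4 _ x hx

end

end Pool.Agent.Lib.MP_1a91b9_ntN
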