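import Pool.Agent.Lib.MP_1a91b9_ntN.DJ.Cnt

/-!
# MP_1a91b9_nt (multicubic base fields), part D: the bordered matrices and the expansion of the powers
of the size of the kernel

The matrix of the set of primes `S`: minus the symbols off the diagonal, on the diagonal the sum of the
symbols and of the class characters in `c`; it is bordered by the rows `∑ j, P j e * a j`, `e : E`,
with the corner `R`.
-/

set_option autoImplicit false
set_option linter.unusedSectionVars false

namespace Pool.Agent.Lib.MP_1a91b9_ntN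

open Finset Pool.Agent.Lib.MP_1a91b9_ntH Pool.Agent.Lib.MP_1a91b9_ntK Pool.Agent.Lib.MP_1a91b9_ntK.Da

noncomputable section

section Mat

variable {ι : Type} [DecidableEq ι] {κ : Type} [Fintype κ] {E : Type} [Fintype E] [DecidableEq E]

/-- The symmetric matrix of the set of primes `S`. -/
def Dt.N (D : Dt ι κ) (c : κ → ZMod 3) (S : Finset ι) : Matrix S S (ZMod 3) :=
  fun i j => if i = j then D.lin c i + ∑ l ∈ S.erase i, D.s i l else -D.s i j

/-- The entries of the border. -/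
def Dt.bd (D : Dt ι κ) (P : κ → E → ZMod 3) (q : ι) (e : E) : ZMod 3 := ∑ j, P j e * D.a q j

/-- The bordered matrix. -/
def Dt.NB (D : Dt ι κ) (c : κ → ZMod 3) (P : κ → E → ZMod 3) (R : Matrix E E (ZMod 3))
    (S : Finset ι) : Matrix (S ⊕ E) (S ⊕ E) (ZMod 3) :=
  Matrix.fromBlocks (D.N c S) (Matrix.of fun i e => D.bd P i e) (Matrix.of fun e i => D.bd P i e) R

/-- The size of the kernel of the bordered matrix. -/
def Dt.kB (D : Dt ι κ) (c : κ → ZMod 3) (P : κ → E → ZMod 3) (R : Matrix E E (ZMod 3))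
    (S : Finset ι) : ℕ :=
  Fintype.card {v : S ⊕ E → ZMod 3 // (D.NB c P R S).mulVec v = 0}

theorem Dt.N_mulVec (D : Dt ι κ) (c : κ → ZMod 3) (S : Finset ι) (v : S → ZMod 3) (j : S) :
    (D.N c S).mulVec v j = D.lin c j * v j + ∑ l : S, D.s j l * (v j - v l) := by
  have h1 : ∑ k ∈ S.erase (j : ι), D.s j k = ∑ l : S, D.s j l - D.s j j := by
    have h2 : ∑ l : S, D.s j l = ∑ k ∈ S, D.s j k := sum_coe_sort S fun k => D.s j k
    rw [h2, ← add_sum_erase S _ j.2]
    ring
  have h3 : (D.N c S).mulVec v j = ∑ l : S, (-(D.s j l * v l) +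
      if l = j then (D.lin c j + ∑ l : S, D.s j l) * v j else 0) := by
    show ∑ l : S, D.N c S j l * v l = _
    refine sum_congr rfl fun l _ => ?_
    by_cases hl : l = j
    · subst hl
      rw [if_pos rfl, Dt.N, if_pos rfl, h1]
      ring
    · rw [if_neg hl, Dt.N, if_neg fun h => hl h.symm, add_zero]
      ring
  rw [h3, sum_add_distrib, sum_ite_eq', if_pos (mem_univ _)]
  simp only [mul_sub, sum_sub_distrib, sum_neg_distrib]
  rw [← sum_mul]
  ring

theorem Dt.NB_inl (D : Dt ι κ) (c : κ → ZMod 3) (P : κ → E → ZMod 3) (R : Matrix E E (ZMod 3))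
    (S : Finset ι) (v : S ⊕ E → ZMod 3) (j : S) :
    (D.NB c P R S).mulVec v (Sum.inl j) = D.lin c j * v (Sum.inl j) +
      ∑ l : S, D.s j l * (v (Sum.inl j) - v (Sum.inl l)) + ∑ e, D.bd P j e * v (Sum.inr e) := by
  rw [Dt.NB, Matrix.fromBlocks_mulVec, Sum.elim_inl, Pi.add_apply, D.N_mulVec]
  rfl

theorem Dt.NB_inr (D : Dt ι κ) (c : κ → ZMod 3) (P : κ → E → ZMod 3) (R : Matrix E E (ZMod 3))
    (S : Finset ι) (v : S ⊕ E → ZMod 3) (e : E) :
    (D.NB c P R S).mulVec v (Sum.inr e) = ∑ l : S, D.bd P l e * v (Sum.inl l) +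
      ∑ f, R e f * v (Sum.inr f) := by
  rw [Dt.NB, Matrix.fromBlocks_mulVec, Sum.elim_inr, Pi.add_apply]
  rfl

end Mat

variable {k : ℕ} {ι : Type} [DecidableEq ι] {κ : Type} [Fintype κ] [DecidableEq κ] {E : Type}
  [Fintype E] [DecidableEq E]

theorem lin_cE (D : Dt ι κ) (c : κ → ZMod 3) (P : κ → E → ZMod 3) (m : E → Lab3 k)
    (l : Lab3 k) (q : ι) : D.lin (cE c P m l) q =
      D.lin c q * Q3 l + ∑ e, D.bd P q e * B3 l (m e) := by
  unfold Dt.lin Dt.bd
  simp only [cE, add_mul, sum_add_distrib]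
  congr 1
  · rw [sum_mul]
    exact sum_congr rfl fun j _ => by ring
  · simp only [sum_mul]
    rw [sum_comm]
    exact sum_congr rfl fun e _ => sum_congr rfl fun j _ => by ring

/-- The exponent of a labelling. -/
def EEB (D : Dt ι κ) (c : κ → ZMod 3) (P : κ → E → ZMod 3) (R : Matrix E E (ZMod 3))
    (S : Finset ι) (f : S → Lab3 k) (m : E → Lab3 k) : ZMod 3 :=
  D.eL Phi3 (cE c P m) S f + RF R m

/-- The value of the form of the bordered matrix. -/
theorem form_NB (D : Dt ι κ) (c : κ → ZMod 3) (P : κ → E → ZMod 3) (R : Matrix E E (ZMod 3))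
    (S : Finset ι) (x y : S ⊕ E → ZMod 3) :
    y ⬝ᵥ (D.NB c P R S).mulVec x =
      ∑ j : S, (D.lin c j * (x (Sum.inl j) * y (Sum.inl j)) +
        ∑ e, D.bd P j e * (x (Sum.inl j) * y (Sum.inr e) + x (Sum.inr e) * y (Sum.inl j))) +
      ∑ j : S, ∑ l : S, (y (Sum.inl j) * (x (Sum.inl j) - x (Sum.inl l))) * D.s j l +
      ∑ e, ∑ f, R e f * (y (Sum.inr e) * x (Sum.inr f)) := by
  rw [dotProduct, Fintype.sum_sum_type]
  simp only [D.NB_inl, D.NB_inr, mul_add, mul_sub, sum_add_distrib, sum_sub_distrib, mul_sum]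
  have h1 : ∑ e : E, ∑ l : S, y (Sum.inr e) * (D.bd P l e * x (Sum.inl l)) =
      ∑ l : S, ∑ e : E, D.bd P l e * (x (Sum.inl l) * y (Sum.inr e)) := by
    rw [sum_comm]
    exact sum_congr rfl fun l _ => sum_congr rfl fun e _ => by ring
  have h2 : ∑ e : E, ∑ f : E, y (Sum.inr e) * (R e f * x (Sum.inr f)) =
      ∑ e : E, ∑ f : E, R e f * (y (Sum.inr e) * x (Sum.inr f)) :=
    sum_congr rfl fun l _ => sum_congr rfl fun e _ => by ring
  have h3 : ∑ j : S, y (Sum.inl j) * (D.lin c j * x (Sum.inl j)) =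
      ∑ j : S, D.lin c j * (x (Sum.inl j) * y (Sum.inl j)) :=
    sum_congr rfl fun l _ => by ring
  have h4 : ∑ j : S, ∑ l : S, y (Sum.inl j) * (D.s j l * x (Sum.inl j)) =
      ∑ j : S, ∑ l : S, y (Sum.inl j) * x (Sum.inl j) * D.s j l :=
    sum_congr rfl fun l _ => sum_congr rfl fun e _ => by ring
  have h5 : ∑ j : S, ∑ l : S, y (Sum.inl j) * (D.s j l * x (Sum.inl l)) =
      ∑ j : S, ∑ l : S, y (Sum.inl j) * x (Sum.inl l) * D.s j l :=
    sum_congr rfl fun l _ => sum_congr rfl fun e _ => by ring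
  have h6 : ∑ j : S, ∑ e : E, y (Sum.inl j) * (D.bd P j e * x (Sum.inr e)) =
      ∑ j : S, ∑ e : E, D.bd P j e * (x (Sum.inr e) * y (Sum.inl j)) :=
    sum_congr rfl fun l _ => sum_congr rfl fun e _ => by ring
  rw [h1, h2, h3, h4, h5, h6]
  simp only [sub_mul, sum_sub_distrib]
  ring

/-- The bijection between the vectors and the labellings. -/
def vecLabE (k : ℕ) (S : Finset ι) (E : Type) :
    (Fin k → (S ⊕ E → ZMod 3) × (S ⊕ E → ZMod 3)) ≃ (S → Lab3 k) × (E → Lab3 k) where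
  toFun g := (fun j => (fun i => (g i).1 (Sum.inl j), fun i => (g i).2 (Sum.inl j)),
    fun e => (fun i => (g i).1 (Sum.inr e), fun i => (g i).2 (Sum.inr e)))
  invFun f i := (Sum.elim (fun j => (f.1 j).1 i) (fun e => (f.2 e).1 i),
    Sum.elim (fun j => (f.1 j).2 i) (fun e => (f.2 e).2 i))
  left_inv g := by
    funext i
    refine Prod.ext (funext fun j => ?_) (funext fun j => ?_)
    · rcases j with j | e <;> rfl
    · rcases j with j | e <;> rfl
  right_inv f := rfl

theorem Phi3_eq (l m : Lab3 k) : Phi3 l m = ∑ i, l.2 i * (l.1 i - m.1 i) := by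
  rw [Phi3, Q3, dotProduct, dotProduct, ← sum_sub_distrib]
  exact sum_congr rfl fun i _ => by ring

theorem exp_eqE (D : Dt ι κ) (c : κ → ZMod 3) (P : κ → E → ZMod 3) (R : Matrix E E (ZMod 3))
    (S : Finset ι) (g : Fin k → (S ⊕ E → ZMod 3) × (S ⊕ E → ZMod 3)) :
    ∑ i, (g i).2 ⬝ᵥ (D.NB c P R S).mulVec (g i).1 =
      EEB D c P R S (vecLabE k S E g).1 (vecLabE k S E g).2 := by
  simp only [form_NB, sum_add_distrib]
  unfold EEB Dt.eL
  simp only [lin_cE, sum_add_distrib]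
  congr 1
  · congr 1
    · congr 1
      · rw [sum_comm]
        refine sum_congr rfl fun j _ => ?_
        rw [← mul_sum]
        rfl
      · rw [sum_comm]
        refine sum_congr rfl fun j _ => ?_
        rw [sum_comm]
        refine sum_congr rfl fun e _ => ?_
        rw [← mul_sum, sum_add_distrib]
        rfl
    · rw [sum_comm]
      refine sum_congr rfl fun j _ => ?_
      rw [sum_comm]
      refine sum_congr rfl fun l _ => ?_
      rw [← sum_mul, Phi3_eq]
      rfl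
  · rw [RF, sum_comm]
    refine sum_congr rfl fun e _ => ?_
    rw [sum_comm]
    refine sum_congr rfl fun f _ => ?_
    rw [← mul_sum]
    rfl

theorem kB_mul (D : Dt ι κ) (c : κ → ZMod 3) (P : κ → E → ZMod 3) (R : Matrix E E (ZMod 3))
    (S : Finset ι) : (D.kB c P R S : ℂ) * 3 ^ (S.card + Fintype.card E) =
      ∑ p : (S ⊕ E → ZMod 3) × (S ⊕ E → ZMod 3), e3 (p.2 ⬝ᵥ (D.NB c P R S).mulVec p.1) := by
  rw [Fintype.sum_prod_type]
  have h1 : ∀ v : S ⊕ E → ZMod 3, ∑ w : S ⊕ E → ZMod 3, e3 (w ⬝ᵥ (D.NB c P R S).mulVec v) =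
      if (D.NB c P R S).mulVec v = 0 then (3 ^ (S.card + Fintype.card E) : ℂ) else 0 := by
    intro v
    rw [sum_dotR, Fintype.card_sum, Fintype.card_coe]
  simp only [h1]
  rw [← sum_filter, sum_const, nsmul_eq_mul, Dt.kB, Fintype.card_subtype]

/-- The expansion of the `k`-th power of the size of the kernel. -/
theorem kB_pow_mul (D : Dt ι κ) (c : κ → ZMod 3) (P : κ → E → ZMod 3) (R : Matrix E E (ZMod 3))
    (S : Finset ι) : (D.kB c P R S : ℂ) ^ k * (3 ^ k) ^ (S.card + Fintype.card E) =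
      ∑ m : E → Lab3 k, e3 (RF R m) * ∑ f : S → Lab3 k, e3 (D.eL Phi3 (cE c P m) S f) := by
  have h : ((3 : ℂ) ^ k) ^ (S.card + Fintype.card E) = (3 ^ (S.card + Fintype.card E)) ^ k := by
    rw [← pow_mul, ← pow_mul, mul_comm]
  have h2 : ∑ m : E → Lab3 k, e3 (RF R m) * ∑ f : S → Lab3 k, e3 (D.eL Phi3 (cE c P m) S f) =
      ∑ p : (S → Lab3 k) × (E → Lab3 k), e3 (EEB D c P R S p.1 p.2) := by
    rw [Fintype.sum_prod_type_right]
    refine sum_congr rfl fun m _ => ?_
    rw [mul_sum]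
    refine sum_congr rfl fun f _ => ?_
    rw [EEB, e3_add, mul_comm]
  rw [h, ← mul_pow, kB_mul, Fintype.sum_pow, h2]
  refine Fintype.sum_equiv (vecLabE k S E) _ _ ?_
  intro g
  rw [← e3_sum, exp_eqE]

/-! ### The size of the kernel -/

theorem ker_pow {n : Type} [Fintype n] [DecidableEq n] (M : Matrix n n (ZMod 3)) :
    ∃ r, Fintype.card {v : n → ZMod 3 // M.mulVec v = 0} = 3 ^ r := by
  classical
  let F := LinearMap.ker (Matrix.mulVecLin M)
  have e : {v : n → ZMod 3 // M.mulVec v = 0} ≃ F :=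
    Equiv.subtypeEquivRight fun v => by
      rw [LinearMap.mem_ker, Matrix.mulVecLin_apply]
  have : Fintype F := Fintype.ofEquiv _ e
  refine ⟨Module.finrank (ZMod 3) F, ?_⟩
  rw [Fintype.card_congr e, Module.card_eq_pow_finrank (K := ZMod 3) (V := F), ZMod.card]

theorem kB_pow (D : Dt ι κ) (c : κ → ZMod 3) (P : κ → E → ZMod 3) (R : Matrix E E (ZMod 3))
    (S : Finset ι) : ∃ r, D.kB c P R S = 3 ^ r := ker_pow _

/-- The trivial vector. -/
theorem triv_mulVec (D : Dt ι κ) {c : κ → ZMod 3} {P : κ → E → ZMod 3}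
    {R : Matrix E E (ZMod 3)} {S : Finset ι} {γ : E → ZMod 3} (h1 : ∀ j, ∑ e, P j e * γ e = c j)
    (h2 : ∀ e, ∑ j, P j e * (∑ q ∈ S, D.a q j) - ∑ f, R e f * γ f = 0) :
    (D.NB c P R S).mulVec (Sum.elim (fun _ => 1) fun e => -γ e) = 0 := by
  funext i
  rcases i with q | e
  · rw [D.NB_inl]
    simp only [Sum.elim_inl, Sum.elim_inr, sub_self, mul_zero, sum_const_zero, add_zero, mul_one,
      Pi.zero_apply]
    have h3 : ∑ e, D.bd P q e * -γ e = -D.lin c q := by
      unfold Dt.bd Dt.lin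
      simp only [sum_mul]
      rw [sum_comm, ← sum_neg_distrib]
      refine sum_congr rfl fun j _ => ?_
      rw [← h1 j, sum_mul, ← sum_neg_distrib]
      exact sum_congr rfl fun e _ => by ring
    rw [h3]
    ring
  · rw [D.NB_inr]
    simp only [Sum.elim_inl, Sum.elim_inr, mul_one, Pi.zero_apply]
    have h3 : ∑ l : S, D.bd P l e = ∑ j, P j e * ∑ q ∈ S, D.a q j := by
      rw [sum_coe_sort S fun l => D.bd P l e]
      unfold Dt.bd
      rw [sum_comm]
      exact sum_congr rfl fun j _ => (mul_sum _ _ _).symm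
    have h4 : ∑ f, R e f * -γ f = -∑ f, R e f * γ f := by
      rw [← sum_neg_distrib]
      exact sum_congr rfl fun f _ => by ring
    rw [h3, h4, ← sub_eq_add_neg]
    exact h2 e

end

end Pool.Agent.Lib.MP_1a91b9_ntN
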