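import Pool.Agent.Lib.MP_1a91b9_ntN.DJ.Dec

/-!
# MP_1a91b9_nt (multicubic base fields), part D: the expansion of the products of the powers of the
sizes of the kernels, and their joint moments in the classes
-/

set_option autoImplicit false
set_option linter.unusedSectionVars false

namespace Pool.Agent.Lib.MP_1a91b9_ntN

open Finset Pool.Agent.Lib.MP_1a91b9_ntH Pool.Agent.Lib.MP_1a91b9_ntK Pool.Agent.Lib.MP_1a91b9_ntK.Da

noncomputable section

variable {A : Type} [Fintype A] [DecidableEq A] {k : A → ℕ} {ι : Type} [DecidableEq ι]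
  {κ : Type} [Fintype κ] [DecidableEq κ] {E : A → Type} [∀ a, Fintype (E a)]
  [∀ a, DecidableEq (E a)]

/-! ### The label system -/

/-- The exponents of the pairs. -/
def PhiP (l m : LabP k) : ZMod 3 := ∑ a, Phi3 (l a) (m a)

theorem PhiP_self (l : LabP k) : PhiP l l = 0 := sum_eq_zero fun a _ => Phi3_self (l a)

theorem PhiP_add (l m : LabP k) : PhiP l m + PhiP m l = QP (l - m) := by
  simp only [PhiP, QP, ← sum_add_distrib, Phi3_add]
  rfl

theorem UnlL_P (U : Finset (LabP k)) : UnlL PhiP U ↔ UnlP U := by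
  rw [UnlL, UnlP]
  simp only [PhiP_add]

theorem OKL_P (hk : ∃ a, 1 ≤ k a) : OKL (PhiP (k := k)) (∏ a, 3 ^ k a) where
  diag := PhiP_self
  two := by
    rw [prod_three_pow]
    obtain ⟨a, ha⟩ := hk
    have h1 : 1 ≤ ∑ a, k a := ha.trans (single_le_sum (fun _ _ => Nat.zero_le _) (mem_univ a))
    calc 2 ≤ 3 ^ 1 := by norm_num
      _ ≤ 3 ^ ∑ a, k a := Nat.pow_le_pow_right (by norm_num) h1
  k1 := fun U hU => K1P ((UnlL_P U).1 hU)
  k2 := fun U hU hc x hx => by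
    have hU' := (UnlL_P U).1 hU
    have hne : U.Nonempty := by
      rw [← card_pos, hc]
      exact prod_pos fun a _ => by positivity
    obtain ⟨l0, hl0⟩ := hne
    by_contra hcon
    push Not at hcon
    refine hx (K2P hU' hc (QP (l0 - x)) fun l hl => ?_)
    have := hcon l hl l0 hl0
    rw [PhiP_add, PhiP_add] at this
    exact this

variable (c : A → κ → ZMod 3) (P : ∀ a, κ → E a → ZMod 3) (R : ∀ a, Matrix (E a) (E a) (ZMod 3))

theorem MsL_P (m : ∀ a, E a → Lab3 (k a)) (ψ : κ → ZMod 3) :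
    MsL PhiP (∏ a, 3 ^ k a) (fun l j => cP c P m l j + ψ j) = MsP c P m (-ψ) := by
  ext U
  rw [mem_MsL, mem_MsP, UnlL_P]
  refine and_congr_right fun _ => and_congr_right fun _ => forall₂_congr fun l _ => ?_
  constructor
  · intro h
    funext j
    have h1 := congrFun h j
    exact eq_neg_of_add_eq_zero_left h1
  · intro h
    funext j
    rw [h]
    exact neg_add_cancel _

/-- The main term of the class character `c0`. -/
def TEP (k : A → ℕ) (c : A → κ → ZMod 3) (P : ∀ a, κ → E a → ZMod 3)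
    (R : ∀ a, Matrix (E a) (E a) (ZMod 3)) (c0 : κ → ZMod 3) : ℂ :=
  ∑ m : (∀ a, E a → Lab3 (k a)), (∏ a, e3 (RF (R a) (m a))) * ((MsP c P m c0).card : ℂ)

/-- The main term is the convolution product of the single main terms. -/
theorem TEP_eq (hc : Function.Injective c) (c0 : κ → ZMod 3) :
    TEP k c P R c0 = ∑ y : A → κ → ZMod 3, if ∑ a, y a = c0 then
      ∏ a, TE (k a) (c a) (P a) (R a) (y a) else 0 := by
  classical
  have h1 : ∀ m : (∀ a, E a → Lab3 (k a)), (∏ a, e3 (RF (R a) (m a))) * ((MsP c P m c0).card : ℂ) =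
      ∑ y : A → κ → ZMod 3, if ∑ a, y a = c0 then
        ∏ a, (e3 (RF (R a) (m a)) * ((MsE (c a) (P a) (m a) (y a)).card : ℂ)) else 0 := by
    intro m
    rw [card_MsP hc, Nat.cast_sum, mul_sum]
    refine sum_congr rfl fun y _ => ?_
    split_ifs
    · rw [Nat.cast_prod, prod_mul_distrib]
    · rw [Nat.cast_zero, mul_zero]
  rw [TEP, sum_congr rfl fun m _ => h1 m, sum_comm]
  refine sum_congr rfl fun y _ => ?_
  split_ifs
  · simp only [TE]
    rw [Finset.prod_univ_sum, Fintype.piFinset_univ]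
  · exact sum_const_zero

/-- **The sum of the main terms is the product of the single sums.** -/
theorem TEP_sum (hc : Function.Injective c) (α : κ → ZMod 3) :
    ∑ c0, e3 (∑ j, c0 j * α j) * TEP k c P R c0 =
      ∏ a, ∑ c0, e3 (∑ j, c0 j * α j) * TE (k a) (c a) (P a) (R a) c0 := by
  classical
  have h1 : ∀ c0 : κ → ZMod 3, e3 (∑ j, c0 j * α j) * TEP k c P R c0 =
      ∑ y : A → κ → ZMod 3, if ∑ a, y a = c0 then
        e3 (∑ j, c0 j * α j) * ∏ a, TE (k a) (c a) (P a) (R a) (y a) else 0 := by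
    intro c0
    rw [TEP_eq c P R hc, mul_sum]
    refine sum_congr rfl fun y _ => ?_
    split_ifs
    · rfl
    · exact mul_zero _
  rw [sum_congr rfl fun c0 _ => h1 c0, sum_comm, Finset.prod_univ_sum, Fintype.piFinset_univ]
  refine sum_congr rfl fun y _ => ?_
  rw [sum_ite_eq, if_pos (mem_univ _), prod_mul_distrib, ← e3_sum]
  congr 2
  rw [sum_comm]
  refine sum_congr rfl fun j _ => ?_
  rw [Finset.sum_apply, sum_mul]

/-! ### The expansion -/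

/-- The exponent of a labelling is the sum of the exponents. -/
theorem eL_P (D : Dt ι κ) (m : ∀ a, E a → Lab3 (k a)) (S : Finset ι) (f : S → LabP k) :
    D.eL PhiP (cP c P m) S f =
      ∑ a, D.eL Phi3 (cE (c a) (P a) (m a)) S fun s => f s a := by
  have h1 : ∀ (l : LabP k) (q : ι), D.lin (cP c P m l) q =
      ∑ a, D.lin (cE (c a) (P a) (m a) (l a)) q := by
    intro l q
    unfold Dt.lin
    simp only [cP, sum_mul]
    exact sum_comm
  have h2 : ∀ j l : S, PhiP (f j) (f l) * D.s j l =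
      ∑ a, Phi3 (f j a) (f l a) * D.s j l := fun j l => by
    rw [PhiP, sum_mul]
  unfold Dt.eL
  simp only [h1, h2, sum_add_distrib]
  congr 1
  · exact sum_comm
  · have h3 : ∀ j : S, ∑ l : S, ∑ a, Phi3 (f j a) (f l a) * D.s j l =
        ∑ a, ∑ l : S, Phi3 (f j a) (f l a) * D.s j l := fun j => sum_comm
    simp only [h3]
    exact sum_comm

/-- The exponent with a class character. -/
theorem eL_add (D : Dt ι κ) {L : Type} (Phi : L → L → ZMod 3) (c' : L → κ → ZMod 3)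
    (ψ : κ → ZMod 3) (S : Finset ι) (f : S → L) :
    D.eL Phi (fun l j => c' l j + ψ j) S f = D.eL Phi c' S f + ∑ q ∈ S, D.lin ψ q := by
  have h1 : ∀ (l : L) (q : ι), D.lin (fun j => c' l j + ψ j) q = D.lin (c' l) q + D.lin ψ q := by
    intro l q
    unfold Dt.lin
    rw [← sum_add_distrib]
    exact sum_congr rfl fun j _ => by ring
  unfold Dt.eL
  simp only [h1, sum_add_distrib]
  rw [sum_coe_sort S fun q => D.lin ψ q]
  ring

/-- The product of the powers of the sizes of the kernels. -/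
def kP (D : Dt ι κ) (k : A → ℕ) (S : Finset ι) : ℕ := ∏ a, D.kB (c a) (P a) (R a) S ^ k a

theorem kP_mul (D : Dt ι κ) (S : Finset ι) :
    (kP c P R D k S : ℂ) * ((∏ a, (3 : ℂ) ^ k a) ^ S.card * ∏ a, ((3 : ℂ) ^ k a) ^ Fintype.card (E a)) =
      ∑ m : (∀ a, E a → Lab3 (k a)), (∏ a, e3 (RF (R a) (m a))) *
        ∑ f : S → LabP k, e3 (D.eL PhiP (cP c P m) S f) := by
  classical
  have h1 : (kP c P R D k S : ℂ) * ((∏ a, (3 : ℂ) ^ k a) ^ S.card *
      ∏ a, ((3 : ℂ) ^ k a) ^ Fintype.card (E a)) =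
      ∏ a, ((D.kB (c a) (P a) (R a) S : ℂ) ^ k a * (3 ^ k a) ^ (S.card + Fintype.card (E a))) := by
    rw [kP, Nat.cast_prod, prod_mul_distrib]
    congr 1
    · exact prod_congr rfl fun a _ => by rw [Nat.cast_pow]
    · rw [← prod_pow, ← prod_mul_distrib]
      exact prod_congr rfl fun a _ => by rw [pow_add]
  rw [h1, prod_congr rfl fun a _ => kB_pow_mul (k := k a) D (c a) (P a) (R a) S,
    Finset.prod_univ_sum, Fintype.piFinset_univ]
  refine sum_congr rfl fun m _ => ?_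
  rw [prod_mul_distrib]
  congr 1
  rw [Finset.prod_univ_sum, Fintype.piFinset_univ,
    ← Equiv.sum_comp (Equiv.piComm fun (_ : S) (a : A) => Lab3 (k a))]
  refine sum_congr rfl fun f _ => ?_
  rw [eL_P, e3_sum]
  rfl

/-- The weighted mean values. -/
def MoP (D : Dt ι κ) (Z : ℕ → Finset (Finset ι)) (k : A → ℕ) (ψ : κ → ZMod 3) (X : ℕ) : ℂ :=
  ∑ S ∈ Z X, e3 (∑ q ∈ S, D.lin ψ q) * (kP c P R D k S : ℂ)

theorem MoP_eq (D : Dt ι κ) (Z : ℕ → Finset (Finset ι)) (ψ : κ → ZMod 3) (X : ℕ) :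
    MoP c P R D Z k ψ X * ∏ a, ((3 : ℂ) ^ k a) ^ Fintype.card (E a) =
      ∑ m : (∀ a, E a → Lab3 (k a)), (∏ a, e3 (RF (R a) (m a))) * ∑ S ∈ Z X,
        ((((∏ a, 3 ^ k a : ℕ) : ℂ)⁻¹) ^ S.card *
          ∑ f : S → LabP k, e3 (D.eL PhiP (fun l j => cP c P m l j + ψ j) S f)) := by
  rw [MoP, sum_mul]
  have h2 : (((∏ a, 3 ^ k a : ℕ)) : ℂ) = ∏ a, (3 : ℂ) ^ k a := by
    push_cast
    rfl
  have hk : (∏ a, (3 : ℂ) ^ k a) ≠ 0 := prod_ne_zero_iff.2 fun a _ => pow_ne_zero _ (by norm_num)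
  have h1 : ∀ S ∈ Z X, e3 (∑ q ∈ S, D.lin ψ q) * (kP c P R D k S : ℂ) *
      ∏ a, ((3 : ℂ) ^ k a) ^ Fintype.card (E a) =
      ∑ m : (∀ a, E a → Lab3 (k a)), (∏ a, e3 (RF (R a) (m a))) *
        ((((∏ a, 3 ^ k a : ℕ) : ℂ)⁻¹) ^ S.card *
          ∑ f : S → LabP k, e3 (D.eL PhiP (fun l j => cP c P m l j + ψ j) S f)) := by
    intro S _
    have h3 := kP_mul (k := k) c P R D S
    have h4 : ∀ m : (∀ a, E a → Lab3 (k a)), (∏ a, e3 (RF (R a) (m a))) *
        ((((∏ a, 3 ^ k a : ℕ) : ℂ)⁻¹) ^ S.card *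
          ∑ f : S → LabP k, e3 (D.eL PhiP (fun l j => cP c P m l j + ψ j) S f)) =
        ((∏ a, (3 : ℂ) ^ k a)⁻¹) ^ S.card * e3 (∑ q ∈ S, D.lin ψ q) *
          ((∏ a, e3 (RF (R a) (m a))) *
          ∑ f : S → LabP k, e3 (D.eL PhiP (cP c P m) S f)) := by
      intro m
      simp only [eL_add, e3_add]
      rw [← sum_mul, h2]
      ring
    rw [sum_congr rfl fun m _ => h4 m, ← mul_sum, ← h3]
    have h5 : ((∏ a, (3 : ℂ) ^ k a)⁻¹) ^ S.card * (∏ a, (3 : ℂ) ^ k a) ^ S.card = 1 := by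
      rw [← mul_pow, inv_mul_cancel₀ hk, one_pow]
    linear_combination (-(e3 (∑ q ∈ S, D.lin ψ q)) * (kP c P R D k S : ℂ) *
      ∏ a, ((3 : ℂ) ^ k a) ^ Fintype.card (E a)) * h5
  rw [sum_congr rfl h1, sum_comm]
  exact sum_congr rfl fun m _ => (mul_sum _ _ _).symm

/-- The limit of the weighted mean values. -/
theorem MoP_lim {D : Dt ι κ} {Z : ℕ → Finset (Finset ι)} (hD : EngD D Z) (hk : ∃ a, 1 ≤ k a)
    (ψ : κ → ZMod 3) (ε : ℝ) (hε : 0 < ε) :
    ∃ X₀ : ℕ, ∀ X : ℕ, X₀ ≤ X →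
    ‖MoP c P R D Z k ψ X * ∏ a, ((3 : ℂ) ^ k a) ^ Fintype.card (E a) -
      TEP k c P R (-ψ) * ((Z X).card : ℂ)‖ ≤ ε * X := by
  have hN : (0 : ℝ) < Fintype.card (∀ a, E a → Lab3 (k a)) := by
    exact_mod_cast Fintype.card_pos
  choose X0 h0 using fun m : (∀ a, E a → Lab3 (k a)) =>
    hD (LabP k) PhiP (∏ a, 3 ^ k a) (fun l j => cP c P m l j + ψ j) (OKL_P hk)
      (ε / Fintype.card (∀ a, E a → Lab3 (k a))) (by positivity)
  refine ⟨∑ m, X0 m, fun X hX => ?_⟩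
  have hXt : ∀ m, X0 m ≤ X := fun m =>
    (single_le_sum (fun _ _ => Nat.zero_le _) (mem_univ m)).trans hX
  rw [MoP_eq, TEP, sum_mul, ← sum_sub_distrib]
  calc ‖∑ m : (∀ a, E a → Lab3 (k a)), ((∏ a, e3 (RF (R a) (m a))) * ∑ S ∈ Z X,
        ((((∏ a, 3 ^ k a : ℕ) : ℂ)⁻¹) ^ S.card *
          ∑ f : S → LabP k, e3 (D.eL PhiP (fun l j => cP c P m l j + ψ j) S f)) -
        (∏ a, e3 (RF (R a) (m a))) * ((MsP c P m (-ψ)).card : ℂ) * ((Z X).card : ℂ))‖
      ≤ ∑ m : (∀ a, E a → Lab3 (k a)), ε / Fintype.card (∀ a, E a → Lab3 (k a)) * X := by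
        refine (norm_sum_le _ _).trans (sum_le_sum fun m _ => ?_)
        have h2 := h0 m X (hXt m)
        rw [MsL_P] at h2
        rw [mul_assoc, ← mul_sub, norm_mul, norm_prod, prod_congr rfl fun a _ => norm_e3 _,
          prod_const_one, one_mul]
        exact h2
    _ = ε * X := by
        rw [sum_const, card_univ, nsmul_eq_mul]
        field_simp

/-! ### Classes -/

/-- The sets in a class. -/
def SG (D : Dt ι κ) (Z : ℕ → Finset (Finset ι)) (γ : κ → ZMod 3) (X : ℕ) : Finset (Finset ι) :=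
  (Z X).filter fun S => ∀ j, ∑ q ∈ S, D.a q j = γ j

theorem mem_SG {D : Dt ι κ} {Z : ℕ → Finset (Finset ι)} {γ : κ → ZMod 3} {X : ℕ} {S : Finset ι} :
    S ∈ SG D Z γ X ↔ S ∈ Z X ∧ ∀ j, ∑ q ∈ S, D.a q j = γ j := by
  rw [SG, mem_filter]

theorem sum_SG (D : Dt ι κ) (Z : ℕ → Finset (Finset ι)) (γ : κ → ZMod 3) (X : ℕ)
    (F : Finset ι → ℂ) : (3 ^ Fintype.card κ : ℂ) * ∑ S ∈ SG D Z γ X, F S =
      ∑ ψ : κ → ZMod 3, e3 (∑ j, -ψ j * γ j) * ∑ S ∈ Z X, e3 (∑ q ∈ S, D.lin ψ q) * F S := by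
  have h1 : ∀ S : Finset ι, ∑ ψ : κ → ZMod 3, e3 (∑ j, -ψ j * γ j) *
      (e3 (∑ q ∈ S, D.lin ψ q) * F S) =
      if ∀ j, ∑ q ∈ S, D.a q j = γ j then (3 ^ Fintype.card κ : ℂ) * F S else 0 := by
    intro S
    have h2 : ∀ ψ : κ → ZMod 3, e3 (∑ j, -ψ j * γ j) * (e3 (∑ q ∈ S, D.lin ψ q) * F S) =
        e3 (ψ ⬝ᵥ fun j => ∑ q ∈ S, D.a q j - γ j) * F S := by
      intro ψ
      rw [← mul_assoc, ← e3_add]
      congr 2
      unfold Dt.lin
      rw [sum_comm, dotProduct, ← sum_add_distrib]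
      refine sum_congr rfl fun j _ => ?_
      rw [← mul_sum]
      ring
    rw [sum_congr rfl fun ψ _ => h2 ψ, ← sum_mul, sum_dotR]
    have h3 : (fun j => ∑ q ∈ S, D.a q j - γ j) = 0 ↔ ∀ j, ∑ q ∈ S, D.a q j = γ j := by
      constructor
      · intro h j
        exact sub_eq_zero.1 (congrFun h j)
      · intro h
        funext j
        exact sub_eq_zero.2 (h j)
    rw [if_congr h3 rfl rfl]
    split_ifs
    · rfl
    · rw [zero_mul]
  simp only [mul_sum (s := Z X)]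
  rw [sum_comm, sum_congr rfl fun S _ => h1 S, SG, sum_filter, mul_sum]
  refine sum_congr rfl fun S _ => ?_
  split_ifs
  · rfl
  · rw [mul_zero]

theorem card_SG {D : Dt ι κ} {Z : ℕ → Finset (Finset ι)} (hM : MeanD D Z) (γ : κ → ZMod 3)
    (ε : ℝ) (hε : 0 < ε) : ∃ X₀ : ℕ, ∀ X : ℕ, X₀ ≤ X →
      ‖(3 ^ Fintype.card κ : ℂ) * ((SG D Z γ X).card : ℂ) - ((Z X).card : ℂ)‖ ≤ ε * X := by
  have hN : (0 : ℝ) < Fintype.card (κ → ZMod 3) := by exact_mod_cast Fintype.card_pos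
  have h1 : ∀ ψ : κ → ZMod 3, ∃ X₀ : ℕ, ∀ X : ℕ, X₀ ≤ X → ψ ≠ 0 →
      ‖∑ S ∈ Z X, e3 (∑ q ∈ S, D.lin ψ q)‖ ≤ ε / Fintype.card (κ → ZMod 3) * X := by
    intro ψ
    by_cases h : ψ = 0
    · exact ⟨0, fun X _ h1 => absurd h h1⟩
    · obtain ⟨X₀, h0⟩ := hM ψ h (ε / Fintype.card (κ → ZMod 3)) (by positivity)
      exact ⟨X₀, fun X hX _ => h0 X hX⟩
  choose X0 h0 using h1
  refine ⟨∑ ψ, X0 ψ, fun X hX => ?_⟩
  have hXt : ∀ ψ, X0 ψ ≤ X := fun ψ =>
    (single_le_sum (fun _ _ => Nat.zero_le _) (mem_univ ψ)).trans hX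
  have h2 := sum_SG D Z γ X fun _ => 1
  simp only [mul_one, sum_const, nsmul_eq_mul] at h2
  have h3 : ∀ q : ι, D.lin 0 q = 0 := fun q => by
    unfold Dt.lin
    exact sum_eq_zero fun j _ => by rw [Pi.zero_apply, zero_mul]
  have h4 : ∑ ψ : κ → ZMod 3, e3 (∑ j, -ψ j * γ j) * ∑ S ∈ Z X, e3 (∑ q ∈ S, D.lin ψ q) -
      ((Z X).card : ℂ) = ∑ ψ ∈ univ.erase (0 : κ → ZMod 3), e3 (∑ j, -ψ j * γ j) *
        ∑ S ∈ Z X, e3 (∑ q ∈ S, D.lin ψ q) := by
    rw [← add_sum_erase univ _ (mem_univ (0 : κ → ZMod 3))]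
    simp only [h3, Pi.zero_apply, neg_zero, zero_mul, sum_const_zero, e3_zero, sum_const,
      nsmul_eq_mul, mul_one, one_mul]
    ring
  rw [h2, h4]
  refine (norm_sum_le _ _).trans ?_
  calc ∑ ψ ∈ univ.erase (0 : κ → ZMod 3), ‖e3 (∑ j, -ψ j * γ j) *
        ∑ S ∈ Z X, e3 (∑ q ∈ S, D.lin ψ q)‖
      ≤ ∑ ψ ∈ univ.erase (0 : κ → ZMod 3), ε / Fintype.card (κ → ZMod 3) * X := by
        refine sum_le_sum fun ψ hψ => ?_
        rw [norm_mul, norm_e3, one_mul]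
        exact h0 ψ X (hXt ψ) (ne_of_mem_erase hψ)
    _ ≤ ∑ ψ : κ → ZMod 3, ε / Fintype.card (κ → ZMod 3) * X :=
        sum_le_sum_of_subset_of_nonneg (erase_subset _ _) fun _ _ _ => by positivity
    _ = ε * X := by
        rw [sum_const, card_univ, nsmul_eq_mul]
        field_simp

/-- The mean values in a class, from the weighted mean values. -/
theorem sum_gen {D : Dt ι κ} {Z : ℕ → Finset (Finset ι)} (hM : MeanD D Z) (γ : κ → ZMod 3)
    (F : Finset ι → ℕ) (W ν : ℝ) (hW1 : 1 ≤ W) (hν : 0 ≤ ν) (TEf : (κ → ZMod 3) → ℂ)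
    (hlim : ∀ (ψ : κ → ZMod 3) (ε : ℝ), 0 < ε → ∃ X₀ : ℕ, ∀ X : ℕ, X₀ ≤ X →
      ‖(∑ S ∈ Z X, e3 (∑ q ∈ S, D.lin ψ q) * (F S : ℂ)) * (W : ℂ) -
        TEf (-ψ) * ((Z X).card : ℂ)‖ ≤ ε * X)
    (hc : ∑ c0, e3 (∑ j, c0 j * γ j) * TEf c0 = W * (ν : ℂ))
    (ε : ℝ) (hε : 0 < ε) : ∃ X₀ : ℕ, ∀ X : ℕ, X₀ ≤ X →
      |∑ S ∈ SG D Z γ X, (F S : ℝ) - ν * (SG D Z γ X).card| ≤ ε * X := by
  have hN : (0 : ℝ) < Fintype.card (κ → ZMod 3) := by exact_mod_cast Fintype.card_pos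
  set ε' : ℝ := ε / (Fintype.card (κ → ZMod 3) + W * ν) with hε'
  have hpos : 0 < ε' := by positivity
  choose X1 h1 using fun ψ : κ → ZMod 3 => hlim ψ ε' hpos
  obtain ⟨X2, h2⟩ := card_SG hM γ ε' hpos
  refine ⟨∑ ψ, X1 ψ + X2, fun X hX => ?_⟩
  have hX1 : ∀ ψ, X1 ψ ≤ X := fun ψ =>
    (single_le_sum (fun _ _ => Nat.zero_le _) (mem_univ ψ)).trans
      ((Nat.le_add_right _ _).trans hX)
  have hX2 : X2 ≤ X := (Nat.le_add_left _ _).trans hX
  have h4 := h2 X hX2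
  have e1 := sum_SG D Z γ X fun S => (F S : ℂ)
  have e2 : ∑ ψ : κ → ZMod 3, e3 (∑ j, -ψ j * γ j) * TEf (-ψ) = W * (ν : ℂ) := by
    rw [← hc, ← Equiv.sum_comp (Equiv.neg (κ → ZMod 3)) fun c0 =>
      e3 (∑ j, c0 j * γ j) * TEf c0]
    rfl
  have e3' : (3 ^ Fintype.card κ : ℂ) * (∑ S ∈ SG D Z γ X, (F S : ℂ)) * W -
      W * ν * ((Z X).card : ℂ) =
      ∑ ψ : κ → ZMod 3, e3 (∑ j, -ψ j * γ j) *
        ((∑ S ∈ Z X, e3 (∑ q ∈ S, D.lin ψ q) * (F S : ℂ)) * W - TEf (-ψ) * ((Z X).card : ℂ)) := by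
    rw [e1, sum_mul, ← e2, sum_mul, ← sum_sub_distrib]
    exact sum_congr rfl fun ψ _ => by ring
  have h5 : ‖(3 ^ Fintype.card κ : ℂ) * (∑ S ∈ SG D Z γ X, (F S : ℂ)) * W -
      W * ν * ((Z X).card : ℂ)‖ ≤ Fintype.card (κ → ZMod 3) * (ε' * X) := by
    rw [e3']
    refine (norm_sum_le _ _).trans ?_
    calc ∑ ψ : κ → ZMod 3, ‖e3 (∑ j, -ψ j * γ j) *
        ((∑ S ∈ Z X, e3 (∑ q ∈ S, D.lin ψ q) * (F S : ℂ)) * W - TEf (-ψ) * ((Z X).card : ℂ))‖
        ≤ ∑ _ψ : κ → ZMod 3, ε' * X := by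
          refine sum_le_sum fun ψ _ => ?_
          rw [norm_mul, norm_e3, one_mul]
          exact h1 ψ X (hX1 ψ)
      _ = Fintype.card (κ → ZMod 3) * (ε' * X) := by
          rw [sum_const, card_univ, nsmul_eq_mul]
  have h6 : ((∑ S ∈ SG D Z γ X, (F S : ℝ) - ν * (SG D Z γ X).card : ℝ) : ℂ) *
      (3 ^ Fintype.card κ * W) =
      ((3 ^ Fintype.card κ : ℂ) * (∑ S ∈ SG D Z γ X, (F S : ℂ)) * W - W * ν * ((Z X).card : ℂ)) -
      W * ν * ((3 ^ Fintype.card κ : ℂ) * ((SG D Z γ X).card : ℂ) - ((Z X).card : ℂ)) := by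
    push_cast
    ring
  have h7 : |∑ S ∈ SG D Z γ X, (F S : ℝ) - ν * (SG D Z γ X).card| * (3 ^ Fintype.card κ * W) ≤
      Fintype.card (κ → ZMod 3) * (ε' * X) + W * ν * (ε' * X) := by
    have hp : (0 : ℝ) < 3 ^ Fintype.card κ * W := by positivity
    have h8 : |∑ S ∈ SG D Z γ X, (F S : ℝ) - ν * (SG D Z γ X).card| * (3 ^ Fintype.card κ * W) =
        ‖((∑ S ∈ SG D Z γ X, (F S : ℝ) - ν * (SG D Z γ X).card : ℝ) : ℂ) *
          (3 ^ Fintype.card κ * W)‖ := by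
      have h9 : ((3 : ℂ) ^ Fintype.card κ * (W : ℂ)) = (((3 : ℝ) ^ Fintype.card κ * W : ℝ) : ℂ) := by
        push_cast
        rfl
      rw [h9, norm_mul, Complex.norm_real, Complex.norm_real, Real.norm_eq_abs, Real.norm_eq_abs,
        abs_of_pos hp]
    rw [h8, h6]
    refine (norm_sub_le _ _).trans (add_le_add h5 ?_)
    rw [norm_mul, norm_mul, Complex.norm_real, Complex.norm_real, Real.norm_eq_abs,
      Real.norm_eq_abs, abs_of_pos (by linarith : 0 < W), abs_of_nonneg hν]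
    exact mul_le_mul_of_nonneg_left h4 (by positivity)
  have h9 : Fintype.card (κ → ZMod 3) * (ε' * X) + W * ν * (ε' * X) = ε * X := by
    rw [hε']
    field_simp
  rw [h9] at h7
  have h10 : (1 : ℝ) ≤ 3 ^ Fintype.card κ * W :=
    one_le_mul_of_one_le_of_one_le (one_le_pow₀ (by norm_num)) hW1
  exact (le_mul_of_one_le_right (abs_nonneg _) h10).trans h7

open Classical in
/-- The limit of the `k`-th moment of the `a`-th matrix in the class `α`. -/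
def nuP (α : κ → ZMod 3) (k : A → ℕ) (a : A) : ℝ :=
  Nk3 (k a) * (if Triv (c a) (P a) (R a) α then 3 ^ k a else 1)

/-- **The joint moments in the classes.** -/
theorem mom_P {D : Dt ι κ} {Z : ℕ → Finset (Finset ι)} (hD : EngD D Z) (hM : MeanD D Z)
    {c : A → κ → ZMod 3} (hc : Function.Injective c) {P : ∀ a, κ → E a → ZMod 3}
    {R : ∀ a, Matrix (E a) (E a) (ZMod 3)} (hR : ∀ a e f, R a e f = R a f e)
    (hP : ∀ a, ∀ x : E a → ZMod 3, (∀ j, ∑ e, P a j e * x e = 0) → x = 0) (γ : κ → ZMod 3)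
    (k : A → ℕ) (ε : ℝ) (hε : 0 < ε) : ∃ X₀ : ℕ, ∀ X : ℕ, X₀ ≤ X →
      |∑ S ∈ SG D Z γ X, (kP c P R D k S : ℝ) -
        (∏ a, nuP c P R γ k a) * (SG D Z γ X).card| ≤ ε * X := by
  classical
  by_cases hk : ∃ a, 1 ≤ k a
  · have h0 : ∀ a, 0 ≤ nuP c P R γ k a := by
      intro a
      rw [nuP]
      split_ifs <;> positivity
    refine sum_gen hM γ (kP c P R D k) (∏ a, ((3 : ℝ) ^ k a) ^ Fintype.card (E a)) _ ?_
      (prod_nonneg fun a _ => h0 a) (TEP k c P R) ?_ ?_ ε hε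
    · calc (1 : ℝ) = ∏ _a : A, (1 : ℝ) := prod_const_one.symm
        _ ≤ _ := prod_le_prod (fun _ _ => zero_le_one) fun a _ =>
          one_le_pow₀ (one_le_pow₀ (by norm_num))
    · intro ψ ε' hε'
      obtain ⟨X0, hX0⟩ := MoP_lim (k := k) c P R hD hk ψ ε' hε'
      refine ⟨X0, fun X hX => ?_⟩
      have h1 := hX0 X hX
      rw [MoP] at h1
      push_cast
      exact h1
    · rw [TEP_sum c P R hc]
      have h1 : ∀ a, ∑ c0, e3 (∑ j, c0 j * γ j) * TE (k a) (c a) (P a) (R a) c0 =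
          ((3 : ℂ) ^ k a) ^ Fintype.card (E a) * ((nuP c P R γ k a : ℝ) : ℂ) := fun a => by
        rw [TE_sum (hR a) (hP a) γ, nuP]
        push_cast
        split_ifs <;> push_cast <;> rfl
      rw [prod_congr rfl fun a _ => h1 a, prod_mul_distrib]
      push_cast
      rfl
  · push Not at hk
    have hk0 : ∀ a, k a = 0 := fun a => by
      have := hk a
      omega
    refine ⟨0, fun X _ => ?_⟩
    have h1 : ∀ S, kP c P R D k S = 1 := fun S =>
      prod_eq_one fun a _ => by rw [hk0 a, pow_zero]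
    have h2 : ∀ a, nuP c P R γ k a = 1 := by
      intro a
      rw [nuP, hk0 a]
      simp [Nk3]
    simp only [h1, h2, prod_const_one, Nat.cast_one, sum_const, nsmul_eq_mul, mul_one, one_mul,
      sub_self, abs_zero]
    positivity

end

end Pool.Agent.Lib.MP_1a91b9_ntN
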