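import Pool.Agent.Lib.MP_1a91b9_ntN.DJ.Dens
import Pool.Agent.Lib.MP_1a91b9_ntK2.D.ExG
import Pool.Agent.Lib.MP_1a91b9_ntK.D.K0

/-!
# MP_1a91b9_nt (multicubic base fields), part D: the rows at a fixed finite set of primes as border

The matrix of `S ∪ B'` with the signs `e` (which are `1` on `S`), possibly bordered by the column `a`, is
a bordered matrix of `S` up to the signs.
-/

set_option autoImplicit false
set_option linter.unusedSectionVars false

namespace Pool.Agent.Lib.MP_1a91b9_ntN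

open Finset Pool.Agent.Lib.MP_1a91b9_ntH Pool.Agent.Lib.MP_1a91b9_ntK Pool.Agent.Lib.MP_1a91b9_ntK.Da

noncomputable section

/-- The kernels of two matrices which agree up to a bijection and signs. -/
theorem card_ker_eq {m n : Type} [Fintype m] [DecidableEq m] [Fintype n] [DecidableEq n]
    (M : Matrix m m (ZMod 3)) (M' : Matrix n n (ZMod 3)) (φ : n ≃ m) (sg : n → ZMod 3)
    (hsg : ∀ i, sg i * sg i = 1) (h : ∀ i j, M' i j = sg i * M (φ i) (φ j) * sg j) :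
    Fintype.card {v : n → ZMod 3 // M'.mulVec v = 0} =
      Fintype.card {v : m → ZMod 3 // M.mulVec v = 0} := by
  have h1 : ∀ (v : m → ZMod 3) (i : n), M'.mulVec (fun j => sg j * v (φ j)) i =
      sg i * M.mulVec v (φ i) := by
    intro v i
    show ∑ j, M' i j * (sg j * v (φ j)) = sg i * ∑ j, M (φ i) j * v j
    rw [← Equiv.sum_comp φ fun j => M (φ i) j * v j, mul_sum]
    refine sum_congr rfl fun j _ => ?_
    rw [h]
    linear_combination (sg i * M (φ i) (φ j) * v (φ j)) * hsg j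
  have h0 : ∀ i, sg i ≠ 0 := fun i h2 => by
    have h3 := hsg i
    rw [h2, zero_mul] at h3
    exact zero_ne_one h3
  let T : (m → ZMod 3) ≃ (n → ZMod 3) :=
    { toFun := fun v j => sg j * v (φ j)
      invFun := fun w i => sg (φ.symm i) * w (φ.symm i)
      left_inv := fun v => by
        funext i
        show sg (φ.symm i) * (sg (φ.symm i) * v (φ (φ.symm i))) = v i
        rw [← mul_assoc, hsg, one_mul, Equiv.apply_symm_apply]
      right_inv := fun w => by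
        funext j
        show sg j * (sg (φ.symm (φ j)) * w (φ.symm (φ j))) = w j
        rw [Equiv.symm_apply_apply, ← mul_assoc, hsg, one_mul] }
  refine (Fintype.card_congr (Equiv.subtypeEquiv T fun v => ?_)).symm
  show M.mulVec v = 0 ↔ M'.mulVec (fun j => sg j * v (φ j)) = 0
  constructor
  · intro h2
    funext i
    rw [h1, h2, Pi.zero_apply, mul_zero]
    rfl
  · intro h2
    funext i
    have h3 := congrFun h2 (φ.symm i)
    rw [h1, Equiv.apply_symm_apply] at h3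
    exact (mul_eq_zero.1 h3).resolve_left (h0 _)

variable {ι : Type} [DecidableEq ι]

section Data

variable (D : Dat3b ι) (e : ι → ZMod 3) (τ σ κ₀ : ZMod 3) (B Ba : Finset ι) (E' : Type)
  [Fintype E'] [DecidableEq E']

/-- The class vector. -/
def cJ : Bool ⊕ B → ZMod 3 :=
  Sum.elim (fun x => if x then σ else τ) (fun p => if (p : ι) ∈ Ba then e p else 0)

/-- The columns. -/
def PJ : Bool ⊕ B → Ba ⊕ E' → ZMod 3 := fun j =>
  Sum.elim (fun p => Sum.elim (fun _ => 0) (fun p' => if (p' : ι) = p then -e p else 0) j)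
    (fun _ => Sum.elim (fun x => if x then 0 else 1) (fun _ => 0) j)

/-- The corner in the class `γ`. -/
def RJ (γ : Bool ⊕ B → ZMod 3) : Matrix (Ba ⊕ E') (Ba ⊕ E') (ZMod 3) :=
  Matrix.fromBlocks
    (Matrix.of fun p p' => if p = p' then e p * (τ * D.a p + σ * D.b p) + e p * xB B γ p +
      ∑ l ∈ Ba.erase p, e p * e l * D.s p l else -(e p * e p' * D.s p p'))
    (Matrix.of fun p _ => e p * D.a p) (Matrix.of fun _ p => e p * D.a p)
    (Matrix.of fun _ _ => κ₀)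

variable {D e τ σ κ₀ B Ba E'}

theorem RJ_symm (hs : D.Sym) (γ : Bool ⊕ B → ZMod 3) (x y : Ba ⊕ E') :
    RJ D e τ σ κ₀ B Ba E' γ x y = RJ D e τ σ κ₀ B Ba E' γ y x := by
  rcases x with p | u <;> rcases y with p' | u'
  · show (if p = p' then _ else _) = (if p' = p then _ else _)
    by_cases h : p = p'
    · subst h
      rfl
    · rw [if_neg h, if_neg fun h' => h h'.symm, hs p p' fun h' => h (Subtype.ext h')]
      ring
  · rfl
  · rfl
  · rfl

theorem PJ_inj (he : ∀ p, e p * e p = 1) (hBa : Ba ⊆ B) (hE : ∀ u u' : E', u = u')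
    (x : Ba ⊕ E' → ZMod 3) (h : ∀ j, ∑ f, PJ e B Ba E' j f * x f = 0) : x = 0 := by
  funext f
  rcases f with p | u
  · have h1 := h (Sum.inr ⟨p, hBa p.2⟩)
    rw [Fintype.sum_sum_type] at h1
    have h2 : ∑ u : E', PJ e B Ba E' (Sum.inr ⟨p, hBa p.2⟩) (Sum.inr u) * x (Sum.inr u) = 0 :=
      sum_eq_zero fun u _ => by
        show (0 : ZMod 3) * _ = 0
        rw [zero_mul]
    rw [h2, add_zero, sum_eq_single p] at h1
    · have h3 : PJ e B Ba E' (Sum.inr ⟨p, hBa p.2⟩) (Sum.inl p) = -e p := if_pos rfl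
      rw [h3] at h1
      show x (Sum.inl p) = 0
      linear_combination (-(e p)) * h1 + (-(x (Sum.inl p))) * he p
    · intro p' _ hp'
      have h3 : PJ e B Ba E' (Sum.inr ⟨p, hBa p.2⟩) (Sum.inl p') = 0 :=
        if_neg fun h' => hp' (Subtype.ext h'.symm)
      rw [h3, zero_mul]
    · exact fun h' => absurd (mem_univ _) h'
  · have h1 := h (Sum.inl false)
    rw [Fintype.sum_sum_type] at h1
    have h2 : ∑ p : Ba, PJ e B Ba E' (Sum.inl false) (Sum.inl p) * x (Sum.inl p) = 0 :=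
      sum_eq_zero fun u _ => by
        show (0 : ZMod 3) * _ = 0
        rw [zero_mul]
    rw [h2, zero_add, sum_eq_single u (fun u' _ hu' => absurd (hE u' u) hu')
      fun h' => absurd (mem_univ _) h'] at h1
    have h3 : PJ e B Ba E' (Sum.inl false) (Sum.inr u) = 1 := rfl
    rw [h3, one_mul] at h1
    exact h1

/-- The linear term on the diagonal. -/
theorem lin_cJ (hBa : Ba ⊆ B) (q : ι) : (dtB D B).lin (cJ e τ σ B Ba) q =
    τ * D.a q + σ * D.b q + ∑ p ∈ Ba, D.s q p * e p := by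
  rw [dtB_lin, Dat3b.exb]
  have h1 : ∑ p ∈ B, xB B (cJ e τ σ B Ba) p * D.s q p = ∑ p ∈ Ba, D.s q p * e p := by
    rw [← sum_subset hBa]
    · refine sum_congr rfl fun p hp => ?_
      rw [xB, dif_pos (hBa hp)]
      show (if p ∈ Ba then e p else 0) * D.s q p = _
      rw [if_pos hp, mul_comm]
    · intro p hp hp'
      rw [xB, dif_pos hp]
      show (if p ∈ Ba then e p else 0) * D.s q p = _
      rw [if_neg hp', zero_mul]
  rw [h1]
  rfl

theorem bd_inl (hBa : Ba ⊆ B) (q : ι) (p : Ba) :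
    (dtB D B).bd (PJ e B Ba E') q (Sum.inl p) = -(D.s q p * e p) := by
  rw [Dt.bd, Fintype.sum_sum_type]
  have h1 : ∑ x : Bool, PJ e B Ba E' (Sum.inl x) (Sum.inl p) * (dtB D B).a q (Sum.inl x) = 0 :=
    sum_eq_zero fun x _ => by
      show (0 : ZMod 3) * _ = 0
      rw [zero_mul]
  rw [h1, zero_add, sum_eq_single ⟨p, hBa p.2⟩]
  · show (if (p : ι) = p then -e p else 0) * D.s q p = _
    rw [if_pos rfl]
    ring
  · intro p' _ hp'
    show (if (p' : ι) = p then -e p else 0) * _ = 0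
    rw [if_neg fun h => hp' (Subtype.ext h), zero_mul]
  · exact fun h' => absurd (mem_univ _) h'

theorem bd_inr (q : ι) (u : E') : (dtB D B).bd (PJ e B Ba E') q (Sum.inr u) = D.a q := by
  rw [Dt.bd, Fintype.sum_sum_type, Fintype.sum_bool]
  have h1 : ∑ x : B, PJ e B Ba E' (Sum.inr x) (Sum.inr u) * (dtB D B).a q (Sum.inr x) = 0 :=
    sum_eq_zero fun x _ => by
      show (0 : ZMod 3) * _ = 0
      rw [zero_mul]
  rw [h1, add_zero]
  show (0 : ZMod 3) * D.b q + 1 * D.a q = D.a q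
  ring

end Data

/-! ### The entries -/

variable {D : Dat3b ι} {e : ι → ZMod 3} {τ σ κ₀ : ZMod 3} {B Ba S : Finset ι}

theorem N_SS (hBa : Ba ⊆ B) (hS : Disjoint S Ba) (he1 : ∀ q ∈ S, e q = 1) {q q' : ι} (hq : q ∈ S)
    (hq' : q' ∈ S) : (dtB D B).N (cJ e τ σ B Ba) S ⟨q, hq⟩ ⟨q', hq'⟩ =
      (D.tw τ σ).N e 1 (S ∪ Ba) ⟨q, mem_union_left _ hq⟩ ⟨q', mem_union_left _ hq'⟩ := by
  unfold Dt.N Dat3.N
  by_cases h : q = q'
  · subst h
    rw [if_pos rfl, if_pos rfl, lin_cJ hBa, he1 q hq]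
    have h1 : (S ∪ Ba).erase q = S.erase q ∪ Ba := by
      rw [erase_union_distrib, erase_eq_of_notMem fun h => disjoint_left.1 hS hq h]
    show _ = 1 * (1 * (τ * D.a q + σ * D.b q) + ∑ l ∈ (S ∪ Ba).erase q, D.s q l * e l)
    rw [h1, sum_union (disjoint_of_subset_left (erase_subset _ _) hS)]
    have h2 : ∑ l ∈ S.erase q, D.s q l * e l = ∑ l ∈ S.erase q, D.s q l :=
      sum_congr rfl fun l hl => by rw [he1 l (mem_of_mem_erase hl), mul_one]
    rw [h2]
    show τ * D.a q + σ * D.b q + ∑ p ∈ Ba, D.s q p * e p + ∑ l ∈ S.erase q, D.s q l = _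
    ring
  · rw [if_neg fun h' => h (congrArg Subtype.val h'), if_neg fun h' => h (congrArg Subtype.val h')]
    rfl

theorem N_SB (hS : Disjoint S Ba) {q p : ι} (hq : q ∈ S) (hp : p ∈ Ba) :
    (D.tw τ σ).N e 1 (S ∪ Ba) ⟨q, mem_union_left _ hq⟩ ⟨p, mem_union_right _ hp⟩ = -D.s q p := by
  unfold Dat3.N
  rw [if_neg fun h' => disjoint_left.1 hS hq (by
    have h1 : q = p := congrArg Subtype.val h'
    rw [h1]
    exact hp)]
  rfl

theorem N_BS (hS : Disjoint S Ba) {q p : ι} (hq : q ∈ S) (hp : p ∈ Ba) :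
    (D.tw τ σ).N e 1 (S ∪ Ba) ⟨p, mem_union_right _ hp⟩ ⟨q, mem_union_left _ hq⟩ = -D.s p q := by
  unfold Dat3.N
  rw [if_neg fun h' => disjoint_left.1 hS hq (by
    have h1 : p = q := congrArg Subtype.val h'
    rw [← h1]
    exact hp)]
  rfl

theorem N_BB (hs : D.Sym) (he : ∀ p, e p * e p = 1) (he1 : ∀ q ∈ S, e q = 1)
    (hS : Disjoint S Ba) {E' : Type} [Fintype E'] [DecidableEq E'] {γ : Bool ⊕ B → ZMod 3}
    (hγ : ∀ p ∈ Ba, xB B γ p = ∑ q ∈ S, D.s q p) (p p' : Ba) :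
    RJ D e τ σ κ₀ B Ba E' γ (Sum.inl p) (Sum.inl p') =
      e p * (D.tw τ σ).N e 1 (S ∪ Ba) ⟨p, mem_union_right _ p.2⟩ ⟨p', mem_union_right _ p'.2⟩ *
        e p' := by
  show (if p = p' then _ else _) = _
  unfold Dat3.N
  by_cases h : p = p'
  · subst h
    rw [if_pos rfl, if_pos rfl, hγ p p.2]
    have h0 : (p : ι) ∉ S := fun h => disjoint_left.1 hS h p.2
    have h1 : (S ∪ Ba).erase (p : ι) = S ∪ Ba.erase (p : ι) := by
      rw [erase_union_distrib, erase_eq_of_notMem h0]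
    show _ = e p * (e p * (1 * (τ * D.a p + σ * D.b p) +
      ∑ l ∈ (S ∪ Ba).erase (p : ι), D.s p l * e l)) * e p
    rw [h1, sum_union (disjoint_of_subset_right (erase_subset _ _) hS)]
    have h2 : ∑ l ∈ S, D.s p l * e l = ∑ q ∈ S, D.s q p :=
      sum_congr rfl fun l hl => by
        rw [he1 l hl, mul_one, hs p l fun h' => h0 (h' ▸ hl)]
    have h3 : ∑ l ∈ Ba.erase (p : ι), e p * e l * D.s p l =
        e p * ∑ l ∈ Ba.erase (p : ι), D.s p l * e l := by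
      rw [mul_sum]
      exact sum_congr rfl fun l _ => by ring
    rw [h2, h3]
    have h4 := he p
    linear_combination (-(e p * (τ * D.a p + σ * D.b p + ∑ q ∈ S, D.s q p +
      ∑ l ∈ Ba.erase (p : ι), D.s p l * e l))) * h4
  · rw [if_neg h, if_neg fun h' => h (Subtype.ext (congrArg (fun z : ↥(S ∪ Ba) => (z : ι)) h'))]
    show -(e p * e p' * D.s p p') = e p * -D.s p p' * e p'
    ring

/-! ### The matrix without the border -/

/-- The bijection of the rows, no border. -/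
def phU (hS : Disjoint S Ba) (E' : Type) [IsEmpty E'] : S ⊕ (Ba ⊕ E') ≃ ↥(S ∪ Ba) :=
  (Equiv.sumCongr (Equiv.refl _) (Equiv.sumEmpty _ _)).trans (Equiv.Finset.union S Ba hS)

/-- The signs of the rows. -/
def sgJ (e : ι → ZMod 3) (S Ba : Finset ι) (E' : Type) : S ⊕ (Ba ⊕ E') → ZMod 3 :=
  Sum.elim (fun _ => 1) (Sum.elim (fun p => e p) fun _ => 1)

theorem kB_unbordered (hs : D.Sym) (he : ∀ p, e p * e p = 1) (he1 : ∀ q ∈ S, e q = 1)
    (hBa : Ba ⊆ B) (hS : Disjoint S Ba) (E' : Type) [Fintype E'] [DecidableEq E'] [IsEmpty E']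
    {γ : Bool ⊕ B → ZMod 3} (hγ : ∀ p ∈ Ba, xB B γ p = ∑ q ∈ S, D.s q p) :
    (dtB D B).kB (cJ e τ σ B Ba) (PJ e B Ba E') (RJ D e τ σ κ₀ B Ba E' γ) S =
      (D.tw τ σ).kc e 1 (S ∪ Ba) := by
  refine card_ker_eq _ _ (phU hS E') (sgJ e S Ba E') ?_ ?_
  · rintro (q | p | u)
    · exact one_mul 1
    · exact he p
    · exact one_mul 1
  · rintro (⟨q, hq⟩ | ⟨p, hp⟩ | u) (⟨q', hq'⟩ | ⟨p', hp'⟩ | u')
    · show (dtB D B).N (cJ e τ σ B Ba) S ⟨q, hq⟩ ⟨q', hq'⟩ = 1 * (D.tw τ σ).N e 1 (S ∪ Ba)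
        (Equiv.Finset.union S Ba hS (Sum.inl ⟨q, hq⟩))
        (Equiv.Finset.union S Ba hS (Sum.inl ⟨q', hq'⟩)) * 1
      rw [N_SS hBa hS he1, one_mul, mul_one, Equiv.Finset.union_inl, Equiv.Finset.union_inl]
    · show (dtB D B).bd (PJ e B Ba E') q (Sum.inl ⟨p', hp'⟩) = 1 * (D.tw τ σ).N e 1 (S ∪ Ba)
        (Equiv.Finset.union S Ba hS (Sum.inl ⟨q, hq⟩))
        (Equiv.Finset.union S Ba hS (Sum.inr ⟨p', hp'⟩)) * e p'
      rw [bd_inl hBa, Equiv.Finset.union_inl, Equiv.Finset.union_inr, N_SB hS hq hp']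
      ring
    · exact (IsEmpty.false u').elim
    · show (dtB D B).bd (PJ e B Ba E') q' (Sum.inl ⟨p, hp⟩) = e p * (D.tw τ σ).N e 1 (S ∪ Ba)
        (Equiv.Finset.union S Ba hS (Sum.inr ⟨p, hp⟩))
        (Equiv.Finset.union S Ba hS (Sum.inl ⟨q', hq'⟩)) * 1
      rw [bd_inl hBa, Equiv.Finset.union_inl, Equiv.Finset.union_inr, N_BS hS hq' hp,
        hs p q' fun h => disjoint_left.1 hS hq' (h ▸ hp)]
      ring
    · show RJ D e τ σ κ₀ B Ba E' γ (Sum.inl ⟨p, hp⟩) (Sum.inl ⟨p', hp'⟩) =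
        e p * (D.tw τ σ).N e 1 (S ∪ Ba)
        (Equiv.Finset.union S Ba hS (Sum.inr ⟨p, hp⟩))
        (Equiv.Finset.union S Ba hS (Sum.inr ⟨p', hp'⟩)) * e p'
      rw [N_BB hs he he1 hS hγ, Equiv.Finset.union_inr, Equiv.Finset.union_inr]
    · exact (IsEmpty.false u').elim
    · exact (IsEmpty.false u).elim
    · exact (IsEmpty.false u).elim
    · exact (IsEmpty.false u).elim

/-! ### The bordered matrix -/

/-- The bijection of the rows, with border. -/
def phB (hS : Disjoint S Ba) (E' : Type) [Unique E'] : S ⊕ (Ba ⊕ E') ≃ ↥(S ∪ Ba) ⊕ Unit :=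
  (Equiv.sumAssoc _ _ _).symm.trans
    (Equiv.sumCongr (Equiv.Finset.union S Ba hS) (Equiv.ofUnique E' Unit))

theorem kB_bordered (hs : D.Sym) (he : ∀ p, e p * e p = 1) (he1 : ∀ q ∈ S, e q = 1)
    (hBa : Ba ⊆ B) (hS : Disjoint S Ba) (E' : Type) [Fintype E'] [DecidableEq E'] [Unique E']
    {γ : Bool ⊕ B → ZMod 3} (hγ : ∀ p ∈ Ba, xB B γ p = ∑ q ∈ S, D.s q p) :
    (dtB D B).kB (cJ e τ σ B Ba) (PJ e B Ba E') (RJ D e τ σ κ₀ B Ba E' γ) S =
      D.kB e τ σ κ₀ (S ∪ Ba) := by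
  refine card_ker_eq _ _ (phB hS E') (sgJ e S Ba E') ?_ ?_
  · rintro (q | p | u)
    · exact one_mul 1
    · exact he p
    · exact one_mul 1
  · rintro (⟨q, hq⟩ | ⟨p, hp⟩ | u) (⟨q', hq'⟩ | ⟨p', hp'⟩ | u')
    · show (dtB D B).N (cJ e τ σ B Ba) S ⟨q, hq⟩ ⟨q', hq'⟩ = 1 * (D.tw τ σ).N e 1 (S ∪ Ba)
        (Equiv.Finset.union S Ba hS (Sum.inl ⟨q, hq⟩))
        (Equiv.Finset.union S Ba hS (Sum.inl ⟨q', hq'⟩)) * 1
      rw [N_SS hBa hS he1, one_mul, mul_one, Equiv.Finset.union_inl, Equiv.Finset.union_inl]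
    · show (dtB D B).bd (PJ e B Ba E') q (Sum.inl ⟨p', hp'⟩) = 1 * (D.tw τ σ).N e 1 (S ∪ Ba)
        (Equiv.Finset.union S Ba hS (Sum.inl ⟨q, hq⟩))
        (Equiv.Finset.union S Ba hS (Sum.inr ⟨p', hp'⟩)) * e p'
      rw [bd_inl hBa, Equiv.Finset.union_inl, Equiv.Finset.union_inr, N_SB hS hq hp']
      ring
    · show (dtB D B).bd (PJ e B Ba E') q (Sum.inr u') =
        1 * D.a ((Equiv.Finset.union S Ba hS (Sum.inl ⟨q, hq⟩) : ↥(S ∪ Ba)) : ι) * 1
      rw [bd_inr, Equiv.Finset.union_inl, one_mul, mul_one]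
    · show (dtB D B).bd (PJ e B Ba E') q' (Sum.inl ⟨p, hp⟩) = e p * (D.tw τ σ).N e 1 (S ∪ Ba)
        (Equiv.Finset.union S Ba hS (Sum.inr ⟨p, hp⟩))
        (Equiv.Finset.union S Ba hS (Sum.inl ⟨q', hq'⟩)) * 1
      rw [bd_inl hBa, Equiv.Finset.union_inl, Equiv.Finset.union_inr, N_BS hS hq' hp,
        hs p q' fun h => disjoint_left.1 hS hq' (h ▸ hp)]
      ring
    · show RJ D e τ σ κ₀ B Ba E' γ (Sum.inl ⟨p, hp⟩) (Sum.inl ⟨p', hp'⟩) =
        e p * (D.tw τ σ).N e 1 (S ∪ Ba)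
        (Equiv.Finset.union S Ba hS (Sum.inr ⟨p, hp⟩))
        (Equiv.Finset.union S Ba hS (Sum.inr ⟨p', hp'⟩)) * e p'
      rw [N_BB hs he he1 hS hγ, Equiv.Finset.union_inr, Equiv.Finset.union_inr]
    · show e p * D.a p =
        e p * D.a ((Equiv.Finset.union S Ba hS (Sum.inr ⟨p, hp⟩) : ↥(S ∪ Ba)) : ι) * 1
      rw [Equiv.Finset.union_inr, mul_one]
    · show (dtB D B).bd (PJ e B Ba E') q' (Sum.inr u) =
        1 * D.a ((Equiv.Finset.union S Ba hS (Sum.inl ⟨q', hq'⟩) : ↥(S ∪ Ba)) : ι) * 1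
      rw [bd_inr, Equiv.Finset.union_inl, one_mul, mul_one]
    · show e p' * D.a p' =
        1 * D.a ((Equiv.Finset.union S Ba hS (Sum.inr ⟨p', hp'⟩) : ↥(S ∪ Ba)) : ι) * e p'
      rw [Equiv.Finset.union_inr]
      ring
    · show κ₀ = 1 * κ₀ * 1
      ring

end

end Pool.Agent.Lib.MP_1a91b9_ntN
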